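import Pool.Agent.Lib.P2ba8ab.Temp

set_option autoImplicit false

/-!
The constraints expressing 3-colourability.
-/

namespace Pool.Agent.Lib.P2ba8ab

/-- variable tags: `x c` says that a vertex has colour `c`, `xb c` is its negation, `h` says that
the vertex has neither of the first two colours, `hb` is its negation -/
inductive VT
  | x (c : Fin 3) | xb (c : Fin 3) | h | hb
  deriving DecidableEq, Fintype

/-- constraint tags -/
inductive CK
  | ee (t : VT) | nx (c : Fin 3) | px (c : Fin 3) | nh | ph | ah | qh | ed (c : Fin 3)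
  deriving DecidableEq, Fintype

/-- the kinds of the constraints -/
def CK.kd : CK → Kind
  | ee _ => Kind.ee
  | nx _ => Kind.nn
  | px _ => Kind.pp
  | nh => Kind.nn
  | ph => Kind.pp
  | ah => Kind.an
  | qh => Kind.pp
  | ed _ => Kind.nn

/-- the variables of the constraints -/
def CK.vr : CK → Bool → Fin 3 → VT × Fin 3
  | ee t, _, _ => (t, 0)
  | nx c, _, s => if s = 1 then (VT.x c, 1) else (VT.xb c, 1)
  | px c, _, s => if s = 1 then (VT.x c, 1) else (VT.xb c, 1)
  | nh, _, s => if s = 1 then (VT.h, 1) else (VT.hb, 1)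
  | ph, _, s => if s = 1 then (VT.h, 1) else (VT.hb, 1)
  | ah, _, s => if s = 0 then (VT.h, 1) else if s = 1 then (VT.xb 0, 1) else (VT.xb 1, 1)
  | qh, _, s => if s = 1 then (VT.hb, 1) else (VT.x 2, 1)
  | ed c, b, s => if s = 1 then (VT.x c, 1) else if b then (VT.x c, 2) else (VT.xb c, 1)

/-- evaluation of references -/
def cr {α : Type} (r : Fin 3) (p : α × α) : α × α :=
  if r = 0 then p else if r = 1 then (p.1, p.1) else (p.2, p.2)

/-- the constraints for a graph -/
def colCons {α : Type} (ad : α × α → Bool) : Cons (VT × (α × α)) (CK × (α × α)) :=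
  lay CK.kd CK.vr ad cr

theorem colCons_total {α : Type} (ad : α × α → Bool) : (colCons ad).Total := by
  rintro ⟨t, p⟩
  exact ⟨(CK.ee t, p), rfl, rfl⟩

theorem strong_of_colorable {α : Type} (G : SimpleGraph α) (ad : α × α → Bool)
    (had : ∀ p, ad p = true ↔ G.Adj p.1 p.2) (hG : G.Colorable 3) :
    ∃ a : VT × (α × α) → Prop, ∀ i, ((colCons ad).kind i).strong fun s =>
      a ((colCons ad).var i s) := by
  obtain ⟨σ⟩ := hG
  let a : VT × (α × α) → Prop
    | (VT.x c, p) => σ p.1 = c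
    | (VT.xb c, p) => σ p.1 ≠ c
    | (VT.h, p) => σ p.1 = 2
    | (VT.hb, p) => σ p.1 ≠ 2
  refine ⟨a, ?_⟩
  rintro ⟨k, u, v⟩
  cases k with
  | ee t => trivial
  | nx c => exact fun h => h.2 h.1
  | px c => exact em _
  | nh => exact fun h => h.2 h.1
  | ph => exact em _
  | ah =>
    change σ u = 2 ↔ (σ u ≠ 0 ∧ σ u ≠ 1)
    generalize σ u = c
    fin_cases c <;> simp
  | qh => exact (em (σ u = 2)).symm
  | ed c =>
    cases hb : ad (u, v) with
    | true =>
      change ¬ (σ u = c ∧ a ((colCons ad).var (CK.ed c, (u, v)) 2))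
      have : (colCons ad).var (CK.ed c, (u, v)) 2 = (VT.x c, (v, v)) := by
        simp [colCons, lay, CK.vr, cr, hb]
      rw [this]
      rintro ⟨h1, h2⟩
      exact σ.valid ((had _).1 hb) (h1.trans h2.symm)
    | false =>
      change ¬ (σ u = c ∧ a ((colCons ad).var (CK.ed c, (u, v)) 2))
      have : (colCons ad).var (CK.ed c, (u, v)) 2 = (VT.xb c, (u, u)) := by
        simp [colCons, lay, CK.vr, cr, hb]
      rw [this]
      rintro ⟨h1, h2⟩
      exact h2 h1

theorem colorable_of_weak {α : Type} (G : SimpleGraph α) (ad : α × α → Bool)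
    (had : ∀ p, ad p = true ↔ G.Adj p.1 p.2) (a : VT × (α × α) → Prop)
    (ha : ∀ i, ((colCons ad).kind i).weak fun s => a ((colCons ad).var i s)) :
    G.Colorable 3 := by
  have h1 : ∀ u c, ¬ (a (VT.x c, (u, u)) ∧ a (VT.xb c, (u, u))) := fun u c => ha (CK.nx c, (u, u))
  have h2 : ∀ u c, a (VT.x c, (u, u)) ∨ a (VT.xb c, (u, u)) := fun u c => ha (CK.px c, (u, u))
  have h3 : ∀ u, ¬ (a (VT.h, (u, u)) ∧ a (VT.hb, (u, u))) := fun u => ha (CK.nh, (u, u))
  have h5 : ∀ u, a (VT.xb 0, (u, u)) → a (VT.xb 1, (u, u)) → a (VT.h, (u, u)) :=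
    fun u => ha (CK.ah, (u, u))
  have h6 : ∀ u, a (VT.hb, (u, u)) ∨ a (VT.x 2, (u, u)) := fun u => ha (CK.qh, (u, u))
  have h7 : ∀ u v c, G.Adj u v → ¬ (a (VT.x c, (u, u)) ∧ a (VT.x c, (v, v))) := by
    intro u v c huv
    have h := ha (CK.ed c, (u, v))
    have e1 : (colCons ad).var (CK.ed c, (u, v)) 2 = (VT.x c, (v, v)) := by
      simp [colCons, lay, CK.vr, cr, (had (u, v)).2 huv]
    change ¬ (a (VT.x c, (u, u)) ∧ a ((colCons ad).var (CK.ed c, (u, v)) 2)) at h
    rwa [e1] at h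
  have hex : ∀ u, ∃ c, a (VT.x c, (u, u)) := by
    intro u
    by_contra hcon
    push Not at hcon
    have h8 := (h2 u 0).resolve_left (hcon 0)
    have h9 := (h2 u 1).resolve_left (hcon 1)
    have h10 := h5 u h8 h9
    exact (h6 u).elim (fun h => h3 u ⟨h10, h⟩) (hcon 2)
  choose σ hσ using hex
  refine ⟨SimpleGraph.Coloring.mk σ ?_⟩
  intro u v huv heq
  exact h7 u v (σ u) huv ⟨hσ u, by rw [heq]; exact hσ v⟩

/-- the reduction, abstractly -/
theorem surjHom_iff_colorable {V Γ α W : Type} {H : V → V → Prop} {e T l : ℕ} [Finite V]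
    [Finite W] (hG : Good H e T) (hl : ∀ u v, H u u → SC H u v → Walk (LAdj H) l u v)
    {lb : Γ → Lab V} (hlab : ∀ c, (lb c).Valid H e T)
    (hall : ∀ γ : Lab V, γ.Valid H e T → ∃ c, lb c = γ) (G : SimpleGraph α)
    (ad : α × α → Bool) (had : ∀ p, ad p = true ↔ G.Adj p.1 p.2)
    {π : W → Node V (Γ × (VT × (α × α))) (Γ × (CK × (α × α))) (Nat.card V + 2) e l}
    (hπ : Fibres H π) :
    SurjHom (blow H (sys T lb (colCons ad)) π) H ↔ G.Colorable 3 := by
  constructor
  · intro h
    obtain ⟨a, ha⟩ := sound hG (colCons_total ad) hlab hall hπ h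
    exact colorable_of_weak G ad had a ha
  · intro h
    obtain ⟨a, ha⟩ := strong_of_colorable G ad had h
    exact complete hG hl hlab hπ a ha

end Pool.Agent.Lib.P2ba8ab
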