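import Pool.Agent.Lib.P2ba8ab.Arith
import Pool.Agent.Lib.P2ba8ab.Col

set_option autoImplicit false

/-!
The reduction is computable in polynomial time.
-/

namespace Pool.Agent.Lib.P2ba8ab

open Pool.Agent.Lib.PolyTime Pool.Agent.Lib.Pa7c826

/-- finite simple graphs with vertex set `Fin n` -/
structure Gr where
  /-- number of vertices -/
  n : ℕ
  /-- the graph -/
  G : SimpleGraph (Fin n)

open Classical in
/-- The bit string of a graph: the number `n` of vertices in unary, a `0`, and the `n` rows of the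
adjacency matrix. -/
noncomputable def Gr.encode (g : Gr) : List Bool :=
  List.replicate g.n true ++ false ::
    (List.ofFn fun i : Fin g.n => List.ofFn fun j : Fin g.n => decide (g.G.Adj i j)).flatten

open Classical in
/-- adjacency of numbers -/
noncomputable def adjN (g : Gr) (a b : ℕ) : Bool :=
  if h : a < g.n ∧ b < g.n then decide (g.G.Adj ⟨a, h.1⟩ ⟨b, h.2⟩) else false

theorem adjN_fin (g : Gr) (a b : Fin g.n) : adjN g a b = true ↔ g.G.Adj a b := by
  simp [adjN]

theorem encode_eq (g : Gr) : g.encode =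
    un g.n ++ false :: (List.range (g.n * g.n)).map (fun k => adjN g (k / g.n) (k % g.n)) := by
  classical
  have h : (List.ofFn fun i : Fin g.n => List.ofFn fun j : Fin g.n => decide (g.G.Adj i j)) =
      List.ofFn fun i : Fin g.n => List.ofFn fun j : Fin g.n => adjN g i j := by
    congr 1
    funext i
    congr 1
    funext j
    simp [adjN]
  rw [← flatten_ofFn, ← h]
  rfl

theorem poly_n {D : Gr → Prop} : PolyN D [Gr.encode] (fun g => g.n) := by
  have h : PolyC D [Gr.encode] Gr.encode := PolyC.var (by simp)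
  refine (PolyN.length h.takeTrue).congr (fun g _ => ?_)
  rw [encode_eq, takeWhile_un, un_length]

theorem poly_rest {D : Gr → Prop} : PolyC D [Gr.encode]
    (fun g => (List.range (g.n * g.n)).map (fun k => adjN g (k / g.n) (k % g.n))) := by
  have h : PolyC D [Gr.encode] Gr.encode := PolyC.var (by simp)
  refine h.afterTrue.congr (fun g _ => ?_)
  rw [encode_eq, afterTrue_un]

theorem adjN_getD (g : Gr) (a b : ℕ) (hb : b < g.n) :
    ((List.range (g.n * g.n)).map (fun k => adjN g (k / g.n) (k % g.n))).getD (a * g.n + b) false =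
      adjN g a b := by
  by_cases ha : a < g.n
  · have h1 : a * g.n + b < g.n * g.n := by nlinarith
    rw [List.getD_eq_getElem _ _ (by simpa using h1)]
    simp only [List.getElem_map, List.getElem_range]
    have e1 : (a * g.n + b) / g.n = a := by
      rw [mul_comm, Nat.mul_add_div (by omega), Nat.div_eq_of_lt hb, add_zero]
    have e2 : (a * g.n + b) % g.n = b := by
      rw [mul_comm, Nat.mul_add_mod, Nat.mod_eq_of_lt hb]
    rw [e1, e2]
  · have h1 : ¬ a * g.n + b < g.n * g.n := by nlinarith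
    rw [List.getD_eq_default _ _ (by simpa using h1)]
    simp [adjN, ha]

/-! ### the index bijection -/

/-- the bijection between indices and numbers -/
def idx (c0 R n : ℕ) : Fin c0 ⊕ ((Fin n × Fin n) × Fin R) ≃ Fin (c0 + n * n * R) :=
  (Equiv.sumCongr (Equiv.refl _) ((Equiv.prodCongr finProdFinEquiv (Equiv.refl _)).trans
    finProdFinEquiv)).trans finSumFinEquiv

theorem idx_inl (c0 R n : ℕ) (u : Fin c0) : (idx c0 R n (Sum.inl u) : ℕ) = u := by
  simp [idx]

theorem idx_inr (c0 R n : ℕ) (a b : Fin n) (t : Fin R) :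
    (idx c0 R n (Sum.inr ((a, b), t)) : ℕ) = c0 + (t + R * (b + n * a)) := by
  simp [idx]

/-- the tag number of an index -/
def iT (c0 R i : ℕ) : ℕ := if decide (i < c0) = true then i else c0 + (i - c0) % R

/-- the first coordinate of the position of an index -/
def iA (c0 R n i : ℕ) : ℕ := (i - c0) / R / n

/-- the second coordinate of the position of an index -/
def iB (c0 R n i : ℕ) : ℕ := (i - c0) / R % n

theorem iT_inl (c0 R n : ℕ) (u : Fin c0) : iT c0 R (idx c0 R n (Sum.inl u)) = u := by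
  rw [idx_inl]
  simp [iT]

theorem iT_inr (c0 R n : ℕ) (a b : Fin n) (t : Fin R) :
    iT c0 R (idx c0 R n (Sum.inr ((a, b), t))) = c0 + t := by
  rw [idx_inr]
  have h : ¬ c0 + (t.1 + R * (b.1 + n * a.1)) < c0 := by omega
  simp only [iT, h, decide_false, Bool.false_eq_true, if_false, Nat.add_sub_cancel_left]
  rw [Nat.add_mul_mod_self_left, Nat.mod_eq_of_lt t.2]

theorem iAB_aux (c0 R n : ℕ) (a b : Fin n) (t : Fin R) :
    (c0 + (t.1 + R * (b.1 + n * a.1)) - c0) / R = b.1 + n * a.1 := by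
  have hR : 0 < R := by have := t.2; omega
  rw [Nat.add_sub_cancel_left, Nat.add_mul_div_left _ _ hR, Nat.div_eq_of_lt t.2, zero_add]

theorem iA_inr (c0 R n : ℕ) (a b : Fin n) (t : Fin R) :
    iA c0 R n (idx c0 R n (Sum.inr ((a, b), t))) = a := by
  have hn : 0 < n := by have := a.2; omega
  rw [idx_inr, iA, iAB_aux, Nat.add_mul_div_left _ _ hn, Nat.div_eq_of_lt b.2, zero_add]

theorem iB_inr (c0 R n : ℕ) (a b : Fin n) (t : Fin R) :
    iB c0 R n (idx c0 R n (Sum.inr ((a, b), t))) = b := by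
  rw [idx_inr, iB, iAB_aux, Nat.add_mul_mod_self_left, Nat.mod_eq_of_lt b.2]

/-! ### adjacency of indices -/

section

variable {V Γ : Type} {e l : ℕ} {c0 R : ℕ}

/-- the bits describing two positions: equality, references from the first to the second, from the
second to the first, and the bits of the positions -/
def bits (F : ℕ → ℕ → Bool) (a b a' b' : ℕ) : Fin 8 → Bool
  | 0 => decide (a' = a) && decide (b' = b)
  | 1 => decide (a' = a) && decide (b' = a)
  | 2 => decide (a' = b) && decide (b' = b)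
  | 3 => decide (a = a') && decide (b = b')
  | 4 => decide (a = a') && decide (b = a')
  | 5 => decide (a = b') && decide (b = b')
  | 6 => F a b
  | 7 => F a' b'

/-- adjacency of two indices with given tags in terms of the bits of the positions -/
def adjT (H : V → V → Prop) (lb : Γ → Lab V) (Tm : ℕ) (an : Fin c0 → V)
    (tg : Fin R → Tag Γ VT CK (Nat.card V + 2) e l) :
    Fin c0 ⊕ Fin R → Fin c0 ⊕ Fin R → (Fin 8 → Bool) → Prop
  | Sum.inl u, Sum.inl v, _ => u ≠ v ∧ (an u = an v ∨ (H (an u) (an v) ∧ an u ≠ an v) ∨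
      (H (an v) (an u) ∧ an v ≠ an u))
  | Sum.inl u, Sum.inr t, _ => KA lb Tm CK.kd (tg t) (an u)
  | Sum.inr t, Sum.inl u, _ => KA lb Tm CK.kd (tg t) (an u)
  | Sum.inr t, Sum.inr t', z => ¬ (t = t' ∧ z 0 = true) ∧ ((tg t = tg t' ∧ z 0 = true) ∨
      (∃ r : Fin 3, KE lb Tm CK.kd CK.vr (tg t) (tg t') (z 6) r ∧
        (if r = 0 then z 0 else if r = 1 then z 1 else z 2) = true) ∨
      (∃ r : Fin 3, KE lb Tm CK.kd CK.vr (tg t') (tg t) (z 7) r ∧
        (if r = 0 then z 3 else if r = 1 then z 4 else z 5) = true))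

/-- the tag of an index -/
def tagI {P : Type} : Fin c0 ⊕ (P × Fin R) → Fin c0 ⊕ Fin R
  | Sum.inl u => Sum.inl u
  | Sum.inr z => Sum.inr z.2

/-- a number as a tag -/
def tagN (c0 R k : ℕ) : Option (Fin c0 ⊕ Fin R) :=
  if h : k < c0 then some (Sum.inl ⟨k, h⟩) else
    if h' : k - c0 < R then some (Sum.inr ⟨k - c0, h'⟩) else none

theorem tagN_idx (n : ℕ) (w : Fin c0 ⊕ ((Fin n × Fin n) × Fin R)) :
    tagN c0 R (iT c0 R (idx c0 R n w)) = some (tagI w) := by
  rcases w with u | ⟨⟨a, b⟩, t⟩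
  · rw [iT_inl]
    simp [tagN, tagI]
  · rw [iT_inr]
    simp [tagN, tagI]

open Classical in
/-- the Boolean adjacency function of two tag numbers -/
noncomputable def adjK (H : V → V → Prop) (lb : Γ → Lab V) (Tm : ℕ) (an : Fin c0 → V)
    (tg : Fin R → Tag Γ VT CK (Nat.card V + 2) e l) (k k' : ℕ) (z : Fin 8 → Bool) : Bool :=
  match tagN c0 R k, tagN c0 R k' with
  | some x, some y => decide (adjT H lb Tm an tg x y z)
  | _, _ => false

theorem cr_iff {n : ℕ} (r : Fin 3) (a b a' b' : Fin n) (F : ℕ → ℕ → Bool) :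
    (if r = 0 then bits F a b a' b' 0 else if r = 1 then bits F a b a' b' 1 else
      bits F a b a' b' 2) = true ↔ (a', b') = cr r (a, b) := by
  fin_cases r <;> simp [bits, cr, Fin.ext_iff]

theorem cr_iff' {n : ℕ} (r : Fin 3) (a b a' b' : Fin n) (F : ℕ → ℕ → Bool) :
    (if r = 0 then bits F a b a' b' 3 else if r = 1 then bits F a b a' b' 4 else
      bits F a b a' b' 5) = true ↔ (a, b) = cr r (a', b') := by
  fin_cases r <;> simp [bits, cr, Fin.ext_iff]

/-- adjacency of two indices in the blow-up -/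
theorem adj_blow_iff {H : V → V → Prop} {lb : Γ → Lab V} {Tm : ℕ} {an : Fin c0 → V}
    {tg : Fin R → Tag Γ VT CK (Nat.card V + 2) e l} {n : ℕ} {F : ℕ → ℕ → Bool}
    (w w' : Fin c0 ⊕ ((Fin n × Fin n) × Fin R)) :
    (blow H (sys Tm lb (colCons fun p : Fin n × Fin n => F p.1 p.2)) (nodeOf an tg)).Adj w w' ↔
      adjT H lb Tm an tg (tagI w) (tagI w')
        (bits F (iA c0 R n (idx c0 R n w)) (iB c0 R n (idx c0 R n w))
          (iA c0 R n (idx c0 R n w')) (iB c0 R n (idx c0 R n w'))) := by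
  have hcr : ∀ p : Fin n × Fin n, cr 0 p = p := fun p => by simp [cr]
  rcases w with u | ⟨⟨a, b⟩, t⟩ <;> rcases w' with u' | ⟨⟨a', b'⟩, t'⟩
  · simp only [blow, nodeOf, tagI, adjT, ne_eq, Sum.inl.injEq, Node.A.injEq, colCons]
    rw [edge_A_A, edge_A_A]
  · simp only [blow, nodeOf, tagI, adjT, ne_eq, reduceCtorEq, not_false_eq_true, true_and, colCons]
    rw [edge_inst_A]
    constructor
    · rintro (h | h | h)
      · exact absurd h.symm Tag.inst_ne_A
      · exact absurd h (edge_A_inst _ _ _)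
      · exact h
    · exact fun h => Or.inr (Or.inr h)
  · simp only [blow, nodeOf, tagI, adjT, ne_eq, reduceCtorEq, not_false_eq_true, true_and, colCons]
    rw [edge_inst_A]
    constructor
    · rintro (h | h | h)
      · exact absurd h Tag.inst_ne_A
      · exact h
      · exact absurd h (edge_A_inst _ _ _)
    · exact fun h => Or.inr (Or.inl h)
  · simp only [tagI, adjT, iA_inr, iB_inr, cr_iff, cr_iff']
    simp only [blow, nodeOf, colCons]
    rw [edge_inst hcr, edge_inst hcr]
    have h0 : bits F a b a' b' 0 = true ↔ (a', b') = (a, b) := by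
      simp [bits, Fin.ext_iff]
    have h1 : ((Sum.inr ((a, b), t) : Fin c0 ⊕ ((Fin n × Fin n) × Fin R)) ≠
        Sum.inr ((a', b'), t')) ↔ ¬ (t = t' ∧ bits F a b a' b' 0 = true) := by
      rw [h0]
      simp only [ne_eq, Sum.inr.injEq, Prod.mk.injEq]
      constructor
      · rintro h ⟨h2, h3, h4⟩
        exact h ⟨⟨h3.symm, h4.symm⟩, h2⟩
      · rintro h ⟨⟨h3, h4⟩, h2⟩
        exact h ⟨h2, h3.symm, h4.symm⟩
    have h2 : ((tg t).inst (a, b) : Node V (Γ × (VT × (Fin n × Fin n)))
        (Γ × (CK × (Fin n × Fin n))) (Nat.card V + 2) e l) = (tg t').inst (a', b') ↔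
        (tg t = tg t' ∧ bits F a b a' b' 0 = true) := by
      rw [h0]
      constructor
      · intro h
        obtain ⟨h3, h4⟩ := Tag.inst_inj h
        exact ⟨h3, h4.symm⟩
      · rintro ⟨h3, h4⟩
        rw [h3, h4]
    rw [h1, h2]
    exact Iff.rfl

/-- the reduction -/
noncomputable def red (H : V → V → Prop) (lb : Γ → Lab V) (Tm : ℕ) (an : Fin c0 → V)
    (tg : Fin R → Tag Γ VT CK (Nat.card V + 2) e l) (g : Gr) : Gr where
  n := c0 + g.n * g.n * R
  G := blow H (sys Tm lb (colCons fun p : Fin g.n × Fin g.n => adjN g p.1 p.2))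
    (fun i => nodeOf an tg ((idx c0 R g.n).symm i))

theorem blow_comp {X E W W' : Type} {L : ℕ} (H : V → V → Prop) (S : Sys V X E L)
    (π : W → Node V X E L e l) (f : W' ≃ W) (i j : W') :
    (blow H S (fun w => π (f w))).Adj i j ↔ (blow H S π).Adj (f i) (f j) := by
  simp only [blow, ne_eq, EmbeddingLike.apply_eq_iff_eq]

/-- the adjacency function of the reduction -/
noncomputable def redF (H : V → V → Prop) (lb : Γ → Lab V) (Tm : ℕ) (an : Fin c0 → V)
    (tg : Fin R → Tag Γ VT CK (Nat.card V + 2) e l) (g : Gr) (i j : ℕ) : Bool :=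
  adjK H lb Tm an tg (iT c0 R i) (iT c0 R j)
    (bits (adjN g) (iA c0 R g.n i) (iB c0 R g.n i) (iA c0 R g.n j) (iB c0 R g.n j))

theorem adjN_red (H : V → V → Prop) (lb : Γ → Lab V) (Tm : ℕ) (an : Fin c0 → V)
    (tg : Fin R → Tag Γ VT CK (Nat.card V + 2) e l) (g : Gr) (i j : ℕ)
    (hi : i < c0 + g.n * g.n * R) (hj : j < c0 + g.n * g.n * R) :
    adjN (red H lb Tm an tg g) i j = redF H lb Tm an tg g i j := by
  obtain ⟨w, hw⟩ : ∃ w, idx c0 R g.n w = ⟨i, hi⟩ := ⟨_, Equiv.apply_symm_apply _ _⟩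
  obtain ⟨w', hw'⟩ : ∃ w, idx c0 R g.n w = ⟨j, hj⟩ := ⟨_, Equiv.apply_symm_apply _ _⟩
  have hwi : i = (idx c0 R g.n w : ℕ) := by rw [hw]
  have hwj : j = (idx c0 R g.n w' : ℕ) := by rw [hw']
  rw [Bool.eq_iff_iff]
  have h1 := adjN_fin (red H lb Tm an tg g) ⟨i, hi⟩ ⟨j, hj⟩
  simp only at h1
  rw [h1]
  have h2 := blow_comp H (sys Tm lb (colCons fun p : Fin g.n × Fin g.n => adjN g p.1 p.2))
    (nodeOf an tg) (idx c0 R g.n).symm ⟨i, hi⟩ ⟨j, hj⟩
  refine h2.trans ?_
  rw [← hw, ← hw', Equiv.symm_apply_apply, Equiv.symm_apply_apply, adj_blow_iff]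
  unfold redF adjK
  rw [hwi, hwj, tagN_idx, tagN_idx]
  simp only [decide_eq_true_eq]

theorem poly_iT {α : Type} {D : α → Prop} {ctx : List (α → List Bool)} {i : α → ℕ}
    (hi : PolyN D ctx i) : PolyN D ctx (fun a => iT c0 R (i a)) := by
  refine PolyC.congr (PolyC.ite (PolyB.lt hi (PolyN.const c0)) (PolyC.mono hi fun _ h => h.1)
    (PolyC.mono ((PolyN.const c0).add (nMod' (PolyN.sub hi (PolyN.const c0)) (PolyN.const R)))
      fun _ h => h.1)) (fun a _ => ?_)
  by_cases h : decide (i a < c0) = true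
  · simp only [iT, h, if_true]
  · simp only [iT, h, Bool.false_eq_true, if_false]

theorem poly_iA {α : Type} {D : α → Prop} {ctx : List (α → List Bool)} {i n : α → ℕ}
    (hi : PolyN D ctx i) (hn : PolyN D ctx n) : PolyN D ctx (fun a => iA c0 R (n a) (i a)) :=
  nDiv' (nDiv' (PolyN.sub hi (PolyN.const c0)) (PolyN.const R)) hn

theorem poly_iB {α : Type} {D : α → Prop} {ctx : List (α → List Bool)} {i n : α → ℕ}
    (hi : PolyN D ctx i) (hn : PolyN D ctx n) : PolyN D ctx (fun a => iB c0 R (n a) (i a)) :=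
  nMod' (nDiv' (PolyN.sub hi (PolyN.const c0)) (PolyN.const R)) hn

/-- the adjacency function of the reduction is computable in polynomial time -/
theorem poly_redF (H : V → V → Prop) (lb : Γ → Lab V) (Tm : ℕ) (an : Fin c0 → V)
    (tg : Fin R → Tag Γ VT CK (Nat.card V + 2) e l) {α : Type} {D : α → Prop}
    {ctx : List (α → List Bool)} {g : α → Gr} {i j : α → ℕ}
    (hn : PolyN D ctx (fun a => (g a).n))
    (hr : PolyC D ctx (fun a => (List.range ((g a).n * (g a).n)).map
      (fun k => adjN (g a) (k / (g a).n) (k % (g a).n))))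
    (hi : PolyN D ctx i) (hj : PolyN D ctx j)
    (hi' : ∀ a, D a → i a < c0 + (g a).n * (g a).n * R)
    (hj' : ∀ a, D a → j a < c0 + (g a).n * (g a).n * R) :
    PolyB D ctx (fun a => redF H lb Tm an tg (g a) (i a) (j a)) := by
  have hAi := poly_iA (c0 := c0) (R := R) hi hn
  have hBi := poly_iB (c0 := c0) (R := R) hi hn
  have hAj := poly_iA (c0 := c0) (R := R) hj hn
  have hBj := poly_iB (c0 := c0) (R := R) hj hn
  -- the matrix entries
  have hent : ∀ {u v : α → ℕ}, PolyN D ctx u → PolyN D ctx v →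
      PolyB D ctx (fun a => (decide (v a < (g a).n)) && adjN (g a) (u a) (v a)) := by
    intro u v hu hv
    refine ((PolyB.lt hv hn).and (PolyB.getD hr ((hu.mul hn).add hv))).congr (fun a _ => ?_)
    by_cases h : v a < (g a).n
    · rw [adjN_getD _ _ _ h]
    · simp [h]
  have hent' : ∀ {u v : α → ℕ}, PolyN D ctx u → PolyN D ctx v →
      PolyB D ctx (fun a => adjN (g a) (u a) (v a)) := by
    intro u v hu hv
    refine (hent hu hv).congr (fun a _ => ?_)
    by_cases h : v a < (g a).n
    · simp [h]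
    · simp [h, adjN]
  have hbits : ∀ k : Fin 8, PolyB D ctx (fun a => bits (adjN (g a)) (iA c0 R (g a).n (i a))
      (iB c0 R (g a).n (i a)) (iA c0 R (g a).n (j a)) (iB c0 R (g a).n (j a)) k) := by
    intro k
    fin_cases k
    · exact (PolyB.natEq hAj hAi).and (PolyB.natEq hBj hBi)
    · exact (PolyB.natEq hAj hAi).and (PolyB.natEq hBj hAi)
    · exact (PolyB.natEq hAj hBi).and (PolyB.natEq hBj hBi)
    · exact (PolyB.natEq hAi hAj).and (PolyB.natEq hBi hBj)
    · exact (PolyB.natEq hAi hAj).and (PolyB.natEq hBi hAj)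
    · exact (PolyB.natEq hAi hBj).and (PolyB.natEq hBi hBj)
    · exact hent' hAi hBi
    · exact hent' hAj hBj
  have hlt : ∀ {u : α → ℕ}, (∀ a, D a → u a < c0 + (g a).n * (g a).n * R) →
      ∀ a, D a → iT c0 R (u a) < c0 + R := by
    intro u hu a ha
    have h1 := hu a ha
    unfold iT
    split_ifs with h
    · simp only [decide_eq_true_eq] at h
      omega
    · simp only [decide_eq_true_eq] at h
      have hR : 0 < R := by
        rcases Nat.eq_zero_or_pos R with h0 | h0
        · subst h0; omega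
        · exact h0
      have := Nat.mod_lt (u a - c0) hR
      omega
  unfold redF
  refine bCases (poly_iT hi) (fun k a => adjK H lb Tm an tg k (iT c0 R (j a))
    (bits (adjN (g a)) (iA c0 R (g a).n (i a)) (iB c0 R (g a).n (i a)) (iA c0 R (g a).n (j a))
      (iB c0 R (g a).n (j a)))) (c0 + R) ?_ (hlt hi')
  intro k _
  refine bCases (poly_iT hj) (fun k' a => adjK H lb Tm an tg k k'
    (bits (adjN (g a)) (iA c0 R (g a).n (i a)) (iB c0 R (g a).n (i a)) (iA c0 R (g a).n (j a))
      (iB c0 R (g a).n (j a)))) (c0 + R) ?_ (hlt hj')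
  intro k' _
  exact bFun (adjK H lb Tm an tg k k') hbits

/-- the reduction is computable in polynomial time -/
theorem poly_red (H : V → V → Prop) (lb : Γ → Lab V) (Tm : ℕ) (an : Fin c0 → V)
    (tg : Fin R → Tag Γ VT CK (Nat.card V + 2) e l) :
    PolyC (fun _ : Gr => True) [Gr.encode] (fun g => (red H lb Tm an tg g).encode) := by
  have hn : PolyN (fun _ : Gr => True) [Gr.encode] (fun g => g.n) := poly_n
  have hM : PolyN (fun _ : Gr => True) [Gr.encode] (fun g => c0 + g.n * g.n * R) :=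
    (PolyN.const c0).add ((hn.mul hn).mul (PolyN.const R))
  have hMM := hM.mul hM
  have hN := upN (n := fun g : Gr => (c0 + g.n * g.n * R) * (c0 + g.n * g.n * R)) hn
  have hMu := upN (n := fun g : Gr => (c0 + g.n * g.n * R) * (c0 + g.n * g.n * R)) hM
  have hr := up (n := fun g : Gr => (c0 + g.n * g.n * R) * (c0 + g.n * g.n * R))
    (poly_rest (D := fun _ : Gr => True))
  have hL := last (D := fun _ : Gr => True) (ctx := [Gr.encode])
    (n := fun g : Gr => (c0 + g.n * g.n * R) * (c0 + g.n * g.n * R))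
  have hpos : ∀ p : Gr × ℕ, True ∧ p.2 < (c0 + p.1.n * p.1.n * R) * (c0 + p.1.n * p.1.n * R) →
      0 < c0 + p.1.n * p.1.n * R := by
    rintro p ⟨-, h⟩
    rcases Nat.eq_zero_or_pos (c0 + p.1.n * p.1.n * R) with h0 | h0
    · rw [h0] at h; omega
    · exact h0
  have h1 := poly_redF H lb Tm an tg (g := fun p : Gr × ℕ => p.1)
    (i := fun p => p.2 / (c0 + p.1.n * p.1.n * R)) (j := fun p => p.2 % (c0 + p.1.n * p.1.n * R))
    hN hr (nDiv' hL hMu) (nMod' hL hMu)
    (fun p hp => (Nat.div_lt_iff_lt_mul (hpos p hp)).2 hp.2)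
    (fun p hp => Nat.mod_lt _ (hpos p hp))
  have h2 := PolyC.map_range hMM h1
  have h3 := PolyC.append hM (PolyC.cons false h2)
  refine h3.congr (fun g _ => ?_)
  rw [encode_eq]
  change _ = un (c0 + g.n * g.n * R) ++ false :: _
  congr 2
  refine List.map_congr_left ?_
  intro k hk
  rw [List.mem_range] at hk
  have hp := hpos (g, k) ⟨trivial, hk⟩
  exact (adjN_red H lb Tm an tg g _ _ ((Nat.div_lt_iff_lt_mul hp).2 hk) (Nat.mod_lt _ hp)).symm

end

end Pool.Agent.Lib.P2ba8ab
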