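import Pool.Agent.Lib.Pa7c826.Comb2

set_option autoImplicit false

/-!
Closure properties of polynomial-time functions used for the reduction.
-/

namespace Pool.Agent.Lib.P2ba8ab

open Pool.Agent.Lib.PolyTime Pool.Agent.Lib.Pa7c826

variable {α : Type} {D : α → Prop} {ctx : List (α → List Bool)}

theorem nDiv {f g : α → ℕ} (hf : PolyN D ctx f) (hg : PolyN D ctx g)
    (hpos : ∀ a, D a → 0 < g a) : PolyN D ctx (fun a => f a / g a) := by
  have F := upN (n := f) hf
  have G := upN (n := f) hg
  have L := last (D := D) (ctx := ctx) (n := f)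
  have h := PolyN.count (φ := fun p : α × ℕ => decide ((p.2 + 1) * g p.1 ≤ f p.1)) hf
    (PolyB.le (L.succ.mul G) F)
  refine h.congr (fun a ha => ?_)
  have e : (Finset.range (f a)).filter (fun i => decide ((i + 1) * g a ≤ f a) = true) =
      Finset.range (f a / g a) := by
    ext i
    simp only [Finset.mem_filter, Finset.mem_range, decide_eq_true_eq]
    rw [← Nat.le_div_iff_mul_le (hpos a ha)]
    constructor
    · rintro ⟨_, h⟩; omega
    · intro h
      have := Nat.div_le_self (f a) (g a)
      exact ⟨by omega, by omega⟩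
  rw [e, Finset.card_range]

theorem nMod {f g : α → ℕ} (hf : PolyN D ctx f) (hg : PolyN D ctx g)
    (hpos : ∀ a, D a → 0 < g a) : PolyN D ctx (fun a => f a % g a) :=
  (PolyN.sub hf (hg.mul (nDiv hf hg hpos))).congr (fun a _ => by
    have := Nat.div_add_mod (f a) (g a)
    omega)

/-- quotients without a condition on the divisor -/
theorem nDiv' {f g : α → ℕ} (hf : PolyN D ctx f) (hg : PolyN D ctx g) :
    PolyN D ctx (fun a => f a / g a) := by
  have h1 : PolyB D ctx (fun a => decide (0 < g a)) := PolyB.lt (PolyN.const 0) hg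
  refine PolyC.congr (PolyC.ite h1 (t := fun a => un (f a / g a)) (u := fun _ => un 0) ?_ ?_) ?_
  · exact nDiv (PolyC.mono hf fun _ h => h.1) (PolyC.mono hg fun _ h => h.1)
      (fun a h => by simpa using h.2)
  · exact PolyN.const 0
  · intro a _
    split_ifs with h
    · rfl
    · have : g a = 0 := by simpa using h
      change un 0 = un (f a / g a)
      rw [this, Nat.div_zero]

theorem nMod' {f g : α → ℕ} (hf : PolyN D ctx f) (hg : PolyN D ctx g) :
    PolyN D ctx (fun a => f a % g a) :=
  (PolyN.sub hf (hg.mul (nDiv' hf hg))).congr (fun a _ => by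
    have := Nat.div_add_mod (f a) (g a)
    omega)

/-- Boolean functions of polynomial-time bits -/
theorem bFun : ∀ {k : ℕ} (g : (Fin k → Bool) → Bool) {φ : α → Fin k → Bool},
    (∀ i, PolyB D ctx (fun a => φ a i)) → PolyB D ctx (fun a => g (φ a)) := by
  intro k
  induction k with
  | zero =>
    intro g φ _
    refine (PolyB.const (g Fin.elim0)).congr (fun a _ => ?_)
    congr 1
    funext i
    exact i.elim0
  | succ k ih =>
    intro g φ h
    have h1 := ih (fun r => g (Fin.cons true r)) (φ := fun a i => φ a i.succ) (fun i => h i.succ)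
    have h2 := ih (fun r => g (Fin.cons false r)) (φ := fun a i => φ a i.succ) (fun i => h i.succ)
    refine (PolyB.ite (h 0) (PolyC.mono h1 fun _ h => h.1) (PolyC.mono h2 fun _ h => h.1)).congr
      (fun a _ => ?_)
    have e : φ a = Fin.cons (φ a 0) (fun i => φ a i.succ) := (Fin.cons_self_tail _).symm
    cases hb : φ a 0 with
    | true =>
      simp only [if_true]
      conv_rhs => rw [e, hb]
    | false =>
      simp only [Bool.false_eq_true, if_false]
      conv_rhs => rw [e, hb]

/-- case distinction over a bounded number -/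
theorem bCases {f : α → ℕ} (hf : PolyN D ctx f) (φ : ℕ → α → Bool) (K : ℕ)
    (h : ∀ k, k < K → PolyB D ctx (φ k)) (hlt : ∀ a, D a → f a < K) :
    PolyB D ctx (fun a => φ (f a) a) := by
  have key : ∀ K, (∀ k, k < K → PolyB D ctx (φ k)) →
      PolyB D ctx (fun a => if f a < K then φ (f a) a else false) := by
    intro K
    induction K with
    | zero =>
      intro _
      exact (PolyB.const false).congr (fun a _ => by simp)
    | succ K ih =>
      intro h
      have h1 := ih (fun k hk => h k (by omega))
      have h2 := h K (by omega)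
      have h3 : PolyB D ctx (fun a => decide (f a = K)) := PolyB.natEq hf (PolyN.const K)
      refine (PolyB.ite h3 (PolyC.mono h2 fun _ h => h.1) (PolyC.mono h1 fun _ h => h.1)).congr
        (fun a _ => ?_)
      by_cases h4 : f a = K
      · simp [h4]
      · simp only [h4, decide_false, Bool.false_eq_true, if_false]
        by_cases h5 : f a < K
        · rw [if_pos h5, if_pos (by omega)]
        · rw [if_neg h5, if_neg (by omega)]
  exact (key K h).congr (fun a ha => by rw [if_pos (hlt a ha)])

theorem flatten_ofFn (a b : ℕ) (F : ℕ → ℕ → Bool) :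
    (List.ofFn fun i : Fin a => List.ofFn fun j : Fin b => F i j).flatten =
      (List.range (a * b)).map (fun k => F (k / b) (k % b)) := by
  have h1 : (List.range (a * b)).map (fun k => F (k / b) (k % b)) =
      List.ofFn (fun k : Fin (a * b) => F (k.1 / b) (k.1 % b)) := by
    apply List.ext_getElem
    · simp
    · intro i h1 h2
      simp
  rw [h1, List.ofFn_mul]
  congr 1
  congr 1
  funext i
  congr 1
  funext j
  have hb : 0 < b := by have := j.2; omega
  have e1 : (i.1 * b + j.1) / b = i.1 := by
    rw [mul_comm, Nat.mul_add_div hb, Nat.div_eq_of_lt j.2, add_zero]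
  have e2 : (i.1 * b + j.1) % b = j.1 := by
    rw [mul_comm, Nat.mul_add_mod, Nat.mod_eq_of_lt j.2]
  simp only [e1, e2]

end Pool.Agent.Lib.P2ba8ab
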