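import Pool.Agent.Lib.P2ba8ab.Defs

set_option autoImplicit false

/-!
From surjective homomorphisms of the blow-up to pattern homomorphisms, and back.
-/

namespace Pool.Agent.Lib.P2ba8ab

open Node

variable {V X E W : Type} {L e l : ℕ} {H : V → V → Prop} {S : Sys V X E L}
  {π : W → Node V X E L e l}

/-- a homomorphism of the blow-up induces a homomorphism of the pattern -/
theorem exists_patHom [Finite V] [Finite W] (hπ : Fibres H π)
    {f : W → V} (hf : ∀ a b, (blow H S π).Adj a b → H (f a) (f b)) :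
    ∃ F : Node V X E L e l → V, PatHom H S F ∧ (∀ w, ¬ (π w).fat H → F (π w) = f w) ∧
      ∀ w, (π w).fat H → H (f w) (F (π w)) := by
  classical
  have hadj : ∀ w w', w ≠ w' → π w = π w' → H (f w) (f w') := fun w w' h1 h2 =>
    hf w w' ⟨h1, Or.inl h2⟩
  have h1 : ∀ a : Node V X E L e l, ∃ v : V, (∃ w, π w = a ∧ f w = v) ∧
      (a.fat H → H v v ∧ ∀ w, π w = a → H (f w) v) := by
    intro a
    by_cases ha : a.fat H
    · have hcard := hπ.fat a ha
      have := Fintype.ofFinite V
      have := Fintype.ofFinite {w // π w = a}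
      rw [Nat.card_eq_fintype_card, Nat.card_eq_fintype_card] at hcard
      obtain ⟨⟨x, hx⟩, ⟨y, hy⟩, hxy, hfxy⟩ :=
        Fintype.exists_ne_map_eq_of_card_lt (fun w : {w // π w = a} => f w.1) hcard
      have hxy' : x ≠ y := fun h => hxy (Subtype.ext h)
      simp only at hfxy
      refine ⟨f x, ⟨x, hx, rfl⟩, fun _ => ⟨?_, ?_⟩⟩
      · have := hadj x y hxy' (hx.trans hy.symm)
        rwa [← hfxy] at this
      · intro w hw
        by_cases hwx : w = x
        · subst hwx
          have := hadj w y hxy' (hx.trans hy.symm)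
          rwa [← hfxy] at this
        · exact hadj w x hwx (hw.trans hx.symm)
    · obtain ⟨w, hw⟩ := hπ.surj a
      exact ⟨f w, ⟨w, hw, rfl⟩, fun h => absurd h ha⟩
  choose F hF1 hF2 using h1
  refine ⟨F, ⟨?_, fun a ha => (hF2 a ha).1⟩, ?_, fun w hw => (hF2 _ hw).2 w rfl⟩
  · intro a b hab
    obtain ⟨w, hw, hw'⟩ := hF1 a
    obtain ⟨x, hx, hx'⟩ := hF1 b
    rw [← hw', ← hx']
    refine hf w x ⟨?_, Or.inr (Or.inl (by rw [hw, hx]; exact hab))⟩
    rintro rfl
    exact hab.ne (hw.symm.trans hx)
  · intro w hw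
    obtain ⟨x, hx, hx'⟩ := hF1 (π w)
    rw [← hx', hπ.thin x w hx (by rw [hx]; exact hw)]

/-- vertices far from all reflexive vertices -/
def Far (H : V → V → Prop) (e : ℕ) (v : V) : Prop := ∀ r, H r r → ¬ Walk H e v r

theorem PatHom.anchor {F : Node V X E L e l → V}
    (hF : PatHom H S F) (u v : V) (h : H u v) : H (F (A u)) (F (A v)) := by
  by_cases huv : u = v
  · subst huv
    exact hF.loop (A u) h
  · exact hF.edge _ _ (Edge.aa h huv)

/-- every node which is not a far anchor is close to a fat node -/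
theorem PatHom.near (hs : ∀ u v, H u v → H v u) {F : Node V X E L e l → V}
    (hF : PatHom H S F) (a : Node V X E L e l) (ha : ∀ v, a = A v → ¬ Far H e v) :
    ∃ a', a'.fat H ∧ Walk H e (F a) (F a') := by
  have hfat : ∀ b : Node V X E L e l, b.fat H → Walk H e (F b) (F b) := fun b hb =>
    Walk.pad (n := 0) rfl (hF.loop b hb) (Nat.zero_le e)
  cases a with
  | A v =>
    have h := ha v rfl
    unfold Far at h
    push Not at h
    obtain ⟨r, hr, hw⟩ := h
    exact ⟨A r, hr, hw.map (g := fun v => F (A v)) hF.anchor⟩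
  | C x => exact ⟨C x, trivial, hfat _ trivial⟩
  | O h m => exact ⟨O h m, trivial, hfat _ trivial⟩
  | Z h i m => exact ⟨Z h i m, trivial, hfat _ trivial⟩
  | Y h i k =>
    refine ⟨O h 0, trivial, ?_⟩
    have key : ∀ n : ℕ, ∀ hn : n < e,
        Walk H (n + 1) (F (Y h i ⟨n, hn⟩)) (F (O h (0 : Fin (l + 1)))) := by
      intro n
      induction n with
      | zero =>
        intro hn
        exact Walk.one (hs _ _ (hF.edge _ _ (Edge.oy rfl rfl)))
      | succ n ih =>
        intro hn
        exact Walk.cons (hs _ _ (hF.edge _ _ (Edge.yy rfl))) (ih (by omega))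
    have := key k.1 k.2
    exact this.pad (hF.loop (O h 0) trivial) (by omega)

/-- in a surjective homomorphism every component of reflexive vertices is chosen by a fat node -/
theorem exists_fat [Finite V] [Finite W] (he : 1 ≤ e) (hs : ∀ u v, H u v → H v u)
    (hmin : ∀ u v, H u u → H v v → Walk H e u v → SC H u v) (hπ : Fibres H π)
    {f : W → V} (hf : ∀ a b, (blow H S π).Adj a b → H (f a) (f b))
    (hsurj : Function.Surjective f) :
    ∃ F : Node V X E L e l → V, PatHom H S F ∧
      ∀ r, H r r → ∃ a : Node V X E L e l, a.fat H ∧ SC H r (F a) := by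
  classical
  obtain ⟨F, hF, h1, h2⟩ := exists_patHom hπ hf
  refine ⟨F, hF, fun r hr => ?_⟩
  have := Fintype.ofFinite V
  have := Fintype.ofFinite W
  -- vertices outside the far anchors
  have hnear : ∀ w, (∀ v, π w = A v → ¬ Far H e v) → ∃ a', a'.fat H ∧ Walk H e (f w) (F a') := by
    intro w hw
    by_cases hfat : (π w).fat H
    · exact ⟨π w, hfat, (Walk.one (h2 w hfat)).pad (hF.loop _ hfat) he⟩
    · rw [← h1 w hfat]
      exact hF.near hs _ hw
  let AF : Finset W := Finset.univ.filter fun w => ∃ v, π w = A v ∧ Far H e v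
  let FS : Finset V := Finset.univ.filter fun v => Far H e v
  have hcov : ∀ v ∈ FS, ∃ w ∈ AF, f w = v := by
    intro v hv
    obtain ⟨w, hw⟩ := hsurj v
    refine ⟨w, ?_, hw⟩
    by_contra hcon
    simp only [AF, Finset.mem_filter, Finset.mem_univ, true_and] at hcon
    push Not at hcon
    obtain ⟨a', ha', hwk⟩ := hnear w hcon
    simp only [FS, Finset.mem_filter, Finset.mem_univ, true_and] at hv
    rw [hw] at hwk
    exact hv _ (hF.loop _ ha') hwk
  have hle : AF.card ≤ FS.card := by
    have hch : ∀ w ∈ AF, ∃ v, π w = A v ∧ Far H e v := fun w hw => by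
      simpa [AF] using hw
    have : Nonempty V := ⟨r⟩
    choose! v hv1 hv2 using hch
    apply Finset.card_le_card_of_injOn v
    · intro w hw
      simp only [FS, Finset.coe_filter, Finset.mem_univ, true_and, Set.mem_ofPred_eq]
      exact hv2 w hw
    · intro w hw w' hw' hww
      apply hπ.thin
      · rw [hv1 w hw, hv1 w' hw', hww]
      · rw [hv1 w hw]
        intro hloop
        exact hv2 w hw _ hloop (Walk.pad (n := 0) rfl hloop (Nat.zero_le e))
  obtain ⟨w, hw⟩ := hsurj r
  have hwAF : w ∉ AF := by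
    intro hwAF
    have h3 : FS ⊆ (AF.erase w).image f := by
      intro v hv
      obtain ⟨w', hw', hfw'⟩ := hcov v hv
      refine Finset.mem_image.2 ⟨w', Finset.mem_erase.2 ⟨?_, hw'⟩, hfw'⟩
      rintro rfl
      simp only [FS, Finset.mem_filter, Finset.mem_univ, true_and] at hv
      rw [← hfw', hw] at hv
      exact hv r hr (Walk.pad (n := 0) rfl hr (Nat.zero_le e))
    have h4 := Finset.card_le_card h3
    have h5 := (Finset.card_image_le (s := AF.erase w) (f := f))
    have h6 := Finset.card_erase_lt_of_mem hwAF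
    omega
  simp only [AF, Finset.mem_filter, Finset.mem_univ, true_and] at hwAF
  push Not at hwAF
  obtain ⟨a', ha', hwk⟩ := hnear w hwAF
  rw [hw] at hwk
  exact ⟨a', ha', hmin _ _ hr (hF.loop _ ha') hwk⟩

/-- a homomorphism of the pattern which is the identity on the anchors gives a surjective
homomorphism -/
theorem surjHom_of_patHom (hs : ∀ u v, H u v → H v u) (hπ : Fibres H π)
    {F : Node V X E L e l → V} (hF : PatHom H S F) (hid : ∀ v, F (A v) = v) :
    SurjHom (blow H S π) H := by
  refine ⟨fun w => F (π w), ?_, ?_⟩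
  · rintro w w' ⟨h1, h2⟩
    rcases h2 with h2 | h2 | h2
    · by_cases hfat : (π w).fat H
      · change H (F (π w)) (F (π w'))
        rw [← h2]
        exact hF.loop _ hfat
      · exact absurd (hπ.thin w w' h2 hfat) h1
    · exact hF.edge _ _ h2
    · exact hs _ _ (hF.edge _ _ h2)
  · intro v
    obtain ⟨w, hw⟩ := hπ.surj (A v)
    exact ⟨w, by simp only [hw, hid]⟩

end Pool.Agent.Lib.P2ba8ab
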