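import Pool.Agent.Lib.P2ba8ab.Real

set_option autoImplicit false

/-!
The hub system of a list of constraints.
-/

namespace Pool.Agent.Lib.P2ba8ab

open Node

variable {V : Type} {H : V → V → Prop} {e T : ℕ}

/-- `n` links of the same label -/
def Lk (H : V → V → Prop) (e : ℕ) (u v : V) (n : ℕ) : Prop :=
  Real H e u (fun _ : Fin n => True) (fun _ => v)

/-- the neighbours in a realisation are distinct and irreflexive -/
theorem Real.inj {ι : Type} {u : V} {J : ι → Prop} {lab : ι → V}
    (hmin : ∀ u v, H u u → H v v → Walk H e u v → SC H u v) (hs : ∀ u v, H u v → H v u)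
    (h : Real H e u J lab) (hJ : ∀ i, J i → ¬ SC H u (lab i)) :
    ∃ b : {i // J i} → V, Function.Injective b := by
  obtain ⟨r, hr, hur, b, hb1, hb2⟩ := h
  refine ⟨fun i => b i.1, ?_⟩
  rintro ⟨i, hi⟩ ⟨j, hj⟩ hij
  simp only at hij
  by_contra hne
  have hne' : i ≠ j := fun h => hne (Subtype.ext h)
  have h1 := hb1 i j hi hj hne'
  rw [← hij] at h1
  obtain ⟨h2, q, hq, hlq, hw⟩ := hb2 i hi
  exact hJ i hi (hur.trans ((SC.single hr h1 h2).trans ((hmin _ _ h1 hq hw).trans (hlq.symm hs))))

theorem Real.card_le [Finite V] {ι : Type} {u : V} {J : ι → Prop} {lab : ι → V}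
    (hmin : ∀ u v, H u u → H v v → Walk H e u v → SC H u v) (hs : ∀ u v, H u v → H v u)
    (h : Real H e u J lab) (hJ : ∀ i, J i → ¬ SC H u (lab i)) :
    Nat.card {i // J i} ≤ Nat.card V := by
  obtain ⟨b, hb⟩ := h.inj hmin hs hJ
  exact Nat.card_le_card_of_injective b hb

theorem Lk.le [Finite V] {u v : V} {n : ℕ}
    (hmin : ∀ u v, H u u → H v v → Walk H e u v → SC H u v) (hs : ∀ u v, H u v → H v u)
    (h : Lk H e u v n) (hJ : ¬ SC H u v) : n ≤ Nat.card V := by
  have := Real.card_le hmin hs h (fun _ _ => hJ)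
  simpa using this

theorem Lk.mono {u v : V} {n m : ℕ} (h : Lk H e u v n) (hm : m ≤ n) : Lk H e u v m :=
  h.reindex (SC.refl _) (fun i => ⟨i.1, lt_of_lt_of_le i.2 hm⟩) (fun _ _ => trivial)
    (fun i j _ _ hij h => hij (Fin.ext (by simpa using h))) (fun _ _ => SC.refl _)

/-- reversing a link -/
theorem Lk.rev {u v : V} (hs : ∀ u v, H u v → H v u) (h : Lk H e u v 1) : Lk H e v u 1 := by
  obtain ⟨r, hr, hur, b, -, hb2⟩ := h
  obtain ⟨h1, q, hq, hlq, hw⟩ := hb2 0 trivial
  have h2 : Walk H (e + 1) r q := Walk.cons h1 hw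
  obtain ⟨b', h3, h4⟩ := h2.symm hs
  refine ⟨q, hq, hlq, fun _ => b', ?_, fun _ _ => ⟨h3, r, hr, hur, h4⟩⟩
  intro i j _ _ hij
  exact absurd (Subsingleton.elim i j) hij

theorem Lk.map {u v : V} {n : ℕ} (h : Lk H e u v n) {g : V → V}
    (hg : ∀ u v, H u v → H (g u) (g v)) : Lk H e (g u) (g v) n := Real.map h hg

/-- the standing assumptions on `H`, the distance `e + 1` and the maximal multiplicity `T` -/
structure Good (H : V → V → Prop) (e T : ℕ) : Prop where
  symm : ∀ u v, H u v → H v u
  he : 1 ≤ e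
  hT : 1 ≤ T
  min : ∀ u v, H u u → H v v → Walk H e u v → SC H u v
  max : ∀ u v, H u u → H v v → ¬ SC H u v → ¬ Lk H e u v (T + 1)
  ex : ∃ u v, H u u ∧ H v v ∧ ¬ SC H u v ∧ Lk H e u v T

theorem exists_good [Finite V] (hs : ∀ u v, H u v → H v u) (he : 1 ≤ e)
    (hmin : ∀ u v, H u u → H v v → Walk H e u v → SC H u v)
    (hex : ∃ u v, H u u ∧ H v v ∧ ¬ SC H u v ∧ Walk H (e + 1) u v) : ∃ T, Good H e T := by
  classical
  let P : ℕ → Prop := fun n => ∀ u v, H u u → H v v → ¬ SC H u v → ¬ Lk H e u v (n + 1)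
  have hP : ∃ n, P n := by
    refine ⟨Nat.card V, fun u v _ _ huv h => ?_⟩
    have := h.le hmin hs huv
    omega
  have h1 := Nat.find_spec hP
  have h2 : Nat.find hP ≠ 0 := by
    intro h
    rw [h] at h1
    obtain ⟨u, v, hu, hv, huv, b, hb, hw⟩ := hex
    refine h1 u v hu hv huv ⟨u, hu, SC.refl _, fun _ => b, ?_, fun _ _ =>
      ⟨hb, v, hv, SC.refl _, hw⟩⟩
    intro i j _ _ hij
    exact absurd (Fin.ext (by omega)) hij
  obtain ⟨n, hn⟩ := Nat.exists_eq_succ_of_ne_zero h2
  have h3 := Nat.find_min hP (m := n) (by omega)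
  refine ⟨Nat.find hP, hs, he, by omega, hmin, h1, ?_⟩
  simp only [P] at h3
  push Not at h3
  obtain ⟨u, v, hu, hv, huv, h4⟩ := h3
  exact ⟨u, v, hu, hv, huv, by rw [hn]; exact h4⟩

theorem Good.le [Finite V] (hG : Good H e T) : T ≤ Nat.card V := by
  obtain ⟨u, v, _, _, huv, h⟩ := hG.ex
  exact h.le hG.min hG.symm huv

/-! ### copies -/

/-- the labels of a copy -/
structure Lab (V : Type) where
  /-- the source -/
  p : V
  /-- the sink -/
  q : V
  /-- the other links of a disjunction hub -/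
  K : Fin (Nat.card V) → V

instance [Finite V] : Finite (Lab V) := by
  apply Finite.of_injective (β := V × V × (Fin (Nat.card V) → V)) fun γ => (γ.p, γ.q, γ.K)
  rintro ⟨p, q, K⟩ ⟨p', q', K'⟩ h
  simp only [Prod.mk.injEq] at h
  obtain ⟨rfl, rfl, rfl⟩ := h
  rfl

/-- the labels of a copy are admissible -/
structure Lab.Valid (H : V → V → Prop) (e T : ℕ) (γ : Lab V) : Prop where
  hp : H γ.p γ.p
  hq : H γ.q γ.q
  hpq : ¬ SC H γ.p γ.q
  hT : Lk H e γ.p γ.q T
  hK : ∀ i, H (γ.K i) (γ.K i)
  real : Real H e γ.q (fun o : Option (Fin (Nat.card V)) => ∀ i, o = some i → ¬ SC H γ.q (γ.K i))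
    (fun o => o.elim γ.p γ.K)

/-- the kinds of hubs -/
inductive Kind
  | ee | nn | an | pp

/-- the owner of a hub -/
def Kind.own (γ : Lab V) : Kind → Fin 3 ⊕ V
  | ee => Sum.inl 0
  | nn => Sum.inr γ.p
  | an => Sum.inl 0
  | pp => Sum.inr γ.q

/-- the target of a link -/
noncomputable def Kind.tgt (γ : Lab V) (T : ℕ) : Kind → Fin (Nat.card V + 2) → Fin 3 ⊕ V
  | ee, k => if k.1 < T then Sum.inr γ.q else if k.1 = T then Sum.inr γ.p else Sum.inl 0
  | nn, k => if k.1 < T - 1 then Sum.inr γ.q else if k.1 = T - 1 then Sum.inl 1 else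
      if k.1 = T then Sum.inl 2 else Sum.inr γ.p
  | an, k => if k.1 < T - 1 then Sum.inr γ.q else if k.1 = T - 1 then Sum.inl 1 else
      if k.1 = T then Sum.inl 2 else Sum.inl 0
  | pp, k => if k.1 = 0 then Sum.inl 1 else if k.1 = 1 then Sum.inl 2 else
      if h : k.1 - 2 < Nat.card V then Sum.inr (γ.K ⟨k.1 - 2, h⟩) else Sum.inr γ.q

/-- constraints over the variables `X`, indexed by `I` -/
structure Cons (X I : Type) where
  /-- the kind of a constraint -/
  kind : I → Kind
  /-- the variables of a constraint -/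
  var : I → Fin 3 → X

/-- the constraint of a kind, read weakly -/
def Kind.weak : Kind → (Fin 3 → Prop) → Prop
  | ee, _ => True
  | nn, a => ¬ (a 1 ∧ a 2)
  | an, a => a 1 → a 2 → a 0
  | pp, a => a 1 ∨ a 2

/-- the constraint of a kind, read strongly -/
def Kind.strong : Kind → (Fin 3 → Prop) → Prop
  | ee, _ => True
  | nn, a => ¬ (a 1 ∧ a 2)
  | an, a => a 0 ↔ (a 1 ∧ a 2)
  | pp, a => a 1 ∨ a 2

variable {X I Γ : Type}

/-- the hub system of the constraints, with one copy for each element of `Γ` -/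
noncomputable def sys (T : ℕ) (lab : Γ → Lab V) (C : Cons X I) : Sys V (Γ × X) (Γ × I) (Nat.card V + 2) where
  owner h := ((C.kind h.2).own (lab h.1)).map (fun s => (h.1, C.var h.2 s)) id
  target h k := ((C.kind h.2).tgt (lab h.1) T k).map (fun s => (h.1, C.var h.2 s)) id

theorem sys_ok {lab : Γ → Lab V} {C : Cons X I} (hlab : ∀ c, (lab c).Valid H e T) :
    (sys T lab C).Ok H := by
  constructor
  · rintro ⟨c, i⟩ v hv
    simp only [sys] at hv
    have h1 := (hlab c).hp
    have h2 := (hlab c).hq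
    cases hk : C.kind i <;> rw [hk] at hv <;> simp only [Kind.own, Sum.map_inl, Sum.map_inr,
      id_eq, reduceCtorEq, Sum.inr.injEq] at hv
    · rw [← hv]; exact h1
    · rw [← hv]; exact h2
  · rintro ⟨c, i⟩ k v hv
    simp only [sys] at hv
    have h1 := (hlab c).hp
    have h2 := (hlab c).hq
    have h3 := (hlab c).hK
    cases hk : C.kind i <;> rw [hk] at hv <;> simp only [Kind.tgt] at hv <;> split_ifs at hv <;>
      simp only [Sum.map_inl, Sum.map_inr, id_eq, reduceCtorEq, Sum.inr.injEq] at hv <;>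
      rw [← hv] <;> first | exact h1 | exact h2 | exact h3 _

/-! ### completeness -/

theorem complete_real {γ : Lab V} (hG : Good H e T) (hγ : γ.Valid H e T) (κ : Kind)
    {a : Fin 3 → Prop} (ha : κ.strong a) {f : Fin 3 ⊕ V → V}
    (hf : ∀ v, f (Sum.inr v) = v) (hft : ∀ s, a s → f (Sum.inl s) = γ.q)
    (hff : ∀ s, ¬ a s → f (Sum.inl s) = γ.p) :
    Real H e (f (κ.own γ)) (fun k => ¬ SC H (f (κ.own γ)) (f (κ.tgt γ T k)))
      (fun k => f (κ.tgt γ T k)) := by
  classical
  have hT := hG.hT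
  have hrev : Lk H e γ.q γ.p 1 := (hγ.hT.mono hT).rev hG.symm
  have hfalse : ∀ {J : Fin (Nat.card V + 2) → Prop} {lb : Fin (Nat.card V + 2) → V},
      (∀ k, ¬ J k) → Real H e γ.q J lb := by
    intro J lb hJ
    exact hrev.reindex (SC.refl _) (fun _ => 0) (fun i hi => absurd hi (hJ i))
      (fun i j hi _ _ => absurd hi (hJ i)) (fun i hi => absurd hi (hJ i))
  -- the hubs with at most `T` links to `q`
  have hbound : ∀ (x y z : V), (x = γ.q ∨ x = γ.p) → (y = γ.q ∨ y = γ.p) →
      ¬ (x = γ.q ∧ y = γ.q) → z = γ.p →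
      ∀ g : Fin (Nat.card V + 2) → V,
        (∀ k, g k = if k.1 < T - 1 then γ.q else if k.1 = T - 1 then x else
          if k.1 = T then y else z) →
      Real H e γ.p (fun k => ¬ SC H γ.p (g k)) g := by
    intro x y z hx hy hxy hz g hg
    refine hγ.hT.reindex (SC.refl _)
      (fun k => if h : k.1 < T - 1 then ⟨k.1, by omega⟩ else ⟨T - 1, by omega⟩)
      (fun _ _ => trivial) ?_ ?_
    · have key : ∀ k, ¬ SC H γ.p (g k) → k.1 < T - 1 ∨ (k.1 = T - 1 ∧ x = γ.q) ∨
          (k.1 = T ∧ y = γ.q) := by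
        intro k hk
        rw [hg k] at hk
        split_ifs at hk with h1 h2 h3
        · exact Or.inl h1
        · rcases hx with rfl | rfl
          · exact Or.inr (Or.inl ⟨h2, rfl⟩)
          · exact absurd (SC.refl _) hk
        · rcases hy with rfl | rfl
          · exact Or.inr (Or.inr ⟨h3, rfl⟩)
          · exact absurd (SC.refl _) hk
        · rw [hz] at hk
          exact absurd (SC.refl _) hk
      intro i j hi hj hij heq
      have hij' : i.1 ≠ j.1 := fun h => hij (Fin.ext h)
      have h1 := key i hi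
      have h2 := key j hj
      by_cases hi1 : i.1 < T - 1
      · by_cases hj1 : j.1 < T - 1
        · simp only [hi1, hj1, dite_true, Fin.mk.injEq] at heq
          exact hij' heq
        · simp only [hi1, hj1, dite_true, dite_false, Fin.mk.injEq] at heq
          omega
      · by_cases hj1 : j.1 < T - 1
        · simp only [hi1, hj1, dite_true, dite_false, Fin.mk.injEq] at heq
          omega
        · rcases h1 with h1 | ⟨h1, h1'⟩ | ⟨h1, h1'⟩
          · exact hi1 h1
          · rcases h2 with h2 | ⟨h2, h2'⟩ | ⟨h2, h2'⟩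
            · exact hj1 h2
            · omega
            · exact hxy ⟨h1', h2'⟩
          · rcases h2 with h2 | ⟨h2, h2'⟩ | ⟨h2, h2'⟩
            · exact hj1 h2
            · exact hxy ⟨h2', h1'⟩
            · omega
    · intro k hk
      rw [hg k] at hk ⊢
      split_ifs at hk ⊢ with h1 h2 h3
      · exact SC.refl _
      · rcases hx with rfl | rfl
        · exact SC.refl _
        · exact absurd (SC.refl _) hk
      · rcases hy with rfl | rfl
        · exact SC.refl _
        · exact absurd (SC.refl _) hk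
      · rw [hz] at hk
        exact absurd (SC.refl _) hk
  have hval : ∀ s, f (Sum.inl s) = γ.q ∨ f (Sum.inl s) = γ.p := fun s => by
    by_cases h : a s
    · exact Or.inl (hft s h)
    · exact Or.inr (hff s h)
  have hpq : γ.p ≠ γ.q := fun h => hγ.hpq (h ▸ SC.refl _)
  have hval' : ∀ s, f (Sum.inl s) = γ.q → a s := fun s h => by
    by_contra hcon
    exact hpq ((hff s hcon).symm.trans h)
  cases κ with
  | ee =>
    change Real H e (f (Sum.inl 0)) _ _
    by_cases h0 : a 0
    · have key : ∀ k : Fin (Nat.card V + 2), ¬ SC H (f (Sum.inl 0)) (f (Kind.ee.tgt γ T k)) →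
          k.1 = T ∧ f (Kind.ee.tgt γ T k) = γ.p := by
        intro k hk
        simp only [Kind.tgt] at hk ⊢
        split_ifs at hk ⊢ with h1 h2
        · rw [hft 0 h0, hf] at hk
          exact absurd (SC.refl _) hk
        · exact ⟨h2, hf _⟩
        · exact absurd (SC.refl _) hk
      simp only [Kind.own]
      rw [hft 0 h0] at key ⊢
      refine hrev.reindex (SC.refl _) (fun _ => 0) (fun _ _ => trivial) ?_ ?_
      · intro i j hi hj hij
        exact absurd (Fin.ext ((key i hi).1.trans (key j hj).1.symm)) hij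
      · intro i hi
        rw [(key i hi).2]
        exact SC.refl _
    · have key : ∀ k : Fin (Nat.card V + 2), ¬ SC H (f (Sum.inl 0)) (f (Kind.ee.tgt γ T k)) →
          k.1 < T ∧ f (Kind.ee.tgt γ T k) = γ.q := by
        intro k hk
        simp only [Kind.tgt] at hk ⊢
        split_ifs at hk ⊢ with h1 h2
        · exact ⟨h1, hf _⟩
        · rw [hff 0 h0, hf] at hk
          exact absurd (SC.refl _) hk
        · exact absurd (SC.refl _) hk
      simp only [Kind.own]
      rw [hff 0 h0] at key ⊢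
      refine hγ.hT.reindex (SC.refl _)
        (fun k => if h : k.1 < T then ⟨k.1, h⟩ else ⟨0, hT⟩) (fun _ _ => trivial) ?_ ?_
      · intro i j hi hj hij
        simp only [(key i hi).1, (key j hj).1, dite_true, ne_eq, Fin.mk.injEq]
        exact fun h => hij (Fin.ext h)
      · intro i hi
        rw [(key i hi).2]
        exact SC.refl _
  | nn =>
    change Real H e (f (Sum.inr γ.p)) _ _
    simp only [Kind.own, hf]
    refine hbound (f (Sum.inl 1)) (f (Sum.inl 2)) γ.p (hval 1) (hval 2) ?_ rfl _ ?_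
    · rintro ⟨h1, h2⟩
      exact ha ⟨hval' 1 h1, hval' 2 h2⟩
    · intro k
      simp only [Kind.tgt]
      split_ifs <;> first | rfl | exact hf _
  | an =>
    change Real H e (f (Sum.inl 0)) _ _
    simp only [Kind.own]
    by_cases h0 : a 0
    · obtain ⟨h1, h2⟩ := ha.1 h0
      rw [hft 0 h0]
      apply hfalse
      intro k hk
      apply hk
      simp only [Kind.tgt]
      split_ifs
      · rw [hf]; exact SC.refl _
      · rw [hft 1 h1]; exact SC.refl _
      · rw [hft 2 h2]; exact SC.refl _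
      · rw [hft 0 h0]; exact SC.refl _
    · rw [hff 0 h0]
      refine hbound (f (Sum.inl 1)) (f (Sum.inl 2)) (f (Sum.inl 0)) (hval 1) (hval 2) ?_
        (hff 0 h0) _ ?_
      · rintro ⟨h1, h2⟩
        exact h0 (ha.2 ⟨hval' 1 h1, hval' 2 h2⟩)
      · intro k
        simp only [Kind.tgt]
        split_ifs <;> first | rfl | exact hf _
  | pp =>
    change Real H e (f (Sum.inr γ.q)) _ _
    simp only [Kind.own, hf]
    -- the links with labels outside the component of `q`
    have key : ∀ k : Fin (Nat.card V + 2), ¬ SC H γ.q (f (Kind.pp.tgt γ T k)) →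
        ((k.1 = 0 ∧ ¬ a 1) ∨ (k.1 = 1 ∧ ¬ a 2)) ∧ f (Kind.pp.tgt γ T k) = γ.p ∨
        ∃ i : Fin (Nat.card V), k.1 = i.1 + 2 ∧ f (Kind.pp.tgt γ T k) = γ.K i := by
      intro k hk
      simp only [Kind.tgt] at hk ⊢
      split_ifs at hk ⊢ with h1 h2 h3
      · left
        have : ¬ a 1 := fun h => by rw [hft 1 h] at hk; exact hk (SC.refl _)
        exact ⟨Or.inl ⟨h1, this⟩, hff 1 this⟩
      · left
        have : ¬ a 2 := fun h => by rw [hft 2 h] at hk; exact hk (SC.refl _)
        exact ⟨Or.inr ⟨h2, this⟩, hff 2 this⟩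
      · right
        exact ⟨⟨k.1 - 2, h3⟩, by simp only; omega, hf _⟩
      · exact absurd k.2 (by omega)
    have hnot : ¬ (¬ a 1 ∧ ¬ a 2) := fun h => ha.elim h.1 h.2
    refine hγ.real.reindex (SC.refl _) (fun k : Fin (Nat.card V + 2) =>
      if h : k.1 < 2 then none else some ⟨k.1 - 2, by omega⟩) ?_ ?_ ?_
    · intro k hk i hi
      rcases key k hk with ⟨h1, -⟩ | ⟨j, hj, hj'⟩
      · have : k.1 < 2 := by omega
        simp only [this, dite_true, reduceCtorEq] at hi
      · have h2 : ¬ k.1 < 2 := by omega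
        simp only [h2, dite_false, Option.some.injEq] at hi
        subst hi
        have h3 : (⟨k.1 - 2, by omega⟩ : Fin (Nat.card V)) = j := Fin.ext (by simp only; omega)
        rw [h3, ← hj']
        exact hk
    · intro k k' hk hk' hkk heq
      have hkk' : k.1 ≠ k'.1 := fun h => hkk (Fin.ext h)
      have h1 := key k hk
      have h2 := key k' hk'
      by_cases hk1 : k.1 < 2
      · by_cases hk2 : k'.1 < 2
        · have h3 : (k.1 = 0 ∧ ¬ a 1) ∨ (k.1 = 1 ∧ ¬ a 2) := by
            rcases h1 with ⟨h1, -⟩ | ⟨j, hj, -⟩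
            · exact h1
            · omega
          have h4 : (k'.1 = 0 ∧ ¬ a 1) ∨ (k'.1 = 1 ∧ ¬ a 2) := by
            rcases h2 with ⟨h2, -⟩ | ⟨j, hj, -⟩
            · exact h2
            · omega
          rcases h3 with ⟨h3, h3'⟩ | ⟨h3, h3'⟩ <;> rcases h4 with ⟨h4, h4'⟩ | ⟨h4, h4'⟩
          · omega
          · exact hnot ⟨h3', h4'⟩
          · exact hnot ⟨h4', h3'⟩
          · omega
        · simp only [hk1, hk2, dite_true, dite_false, reduceCtorEq] at heq
      · by_cases hk2 : k'.1 < 2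
        · simp only [hk1, hk2, dite_true, dite_false, reduceCtorEq] at heq
        · simp only [hk1, hk2, dite_false, Option.some.injEq, Fin.mk.injEq] at heq
          omega
    · intro k hk
      rcases key k hk with ⟨h1, h2⟩ | ⟨j, hj, hj'⟩
      · have : k.1 < 2 := by omega
        simp only [this, dite_true, Option.elim_none]
        rw [h2]; exact SC.refl _
      · have h2 : ¬ k.1 < 2 := by omega
        simp only [h2, dite_false, Option.elim_some]
        have h3 : (⟨k.1 - 2, by omega⟩ : Fin (Nat.card V)) = j := Fin.ext (by simp only; omega)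
        rw [h3, hj']; exact SC.refl _

/-- a strong solution of the constraints gives a surjective homomorphism -/
theorem complete {W : Type} {l : ℕ} (hG : Good H e T)
    (hl : ∀ u v, H u u → SC H u v → Walk (LAdj H) l u v) {lb : Γ → Lab V} {C : Cons X I}
    (hlab : ∀ c, (lb c).Valid H e T)
    {π : W → Node V (Γ × X) (Γ × I) (Nat.card V + 2) e l} (hπ : Fibres H π)
    (a : X → Prop) (ha : ∀ i, (C.kind i).strong fun s => a (C.var i s)) :
    SurjHom (blow H (sys T lb C) π) H := by
  classical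
  let ν : (Γ × X) ⊕ V → V := Sum.elim (fun z => if a z.2 then (lb z.1).q else (lb z.1).p) id
  have hν : Sat H e (sys T lb C) ν := by
    rintro ⟨c, i⟩
    exact complete_real hG (hlab c) (C.kind i) (ha i)
      (f := fun s => ν (s.map (fun s => (c, C.var i s)) id)) (fun v => rfl)
      (fun s hs => by simp [ν, hs]) (fun s hs => by simp [ν, hs])
  obtain ⟨F, hF, hid⟩ := hν.exists_patHom hG.he hG.symm hl (sys_ok hlab) (fun v => rfl)
    (by
      rintro ⟨c, x⟩
      simp only [ν, Sum.elim_inl]
      split_ifs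
      · exact (hlab c).hq
      · exact (hlab c).hp)
  exact surjHom_of_patHom hG.symm hπ hF hid

end Pool.Agent.Lib.P2ba8ab
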