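import Mathlib

set_option autoImplicit false

/-!
Surjective homomorphisms to a fixed graph `H` with loops allowed: walks, components of the
subgraph induced by the reflexive vertices, hub systems and their blow-ups.
-/

namespace Pool.Agent.Lib.P2ba8ab

variable {V : Type}

/-- adjacency between reflexive vertices -/
def LAdj (H : V → V → Prop) (u v : V) : Prop := H u u ∧ H v v ∧ H u v

/-- `u` and `v` are equal or joined by a walk inside the set of reflexive vertices -/
def SC (H : V → V → Prop) (u v : V) : Prop := Relation.ReflTransGen (LAdj H) u v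

/-- there is a surjective homomorphism from the simple graph `G` to `H` -/
def SurjHom {W : Type} (G : SimpleGraph W) (H : V → V → Prop) : Prop :=
  ∃ f : W → V, (∀ a b, G.Adj a b → H (f a) (f b)) ∧ Function.Surjective f

/-- walks of length `n` -/
def Walk (H : V → V → Prop) : ℕ → V → V → Prop
  | 0, u, v => u = v
  | n + 1, u, v => ∃ w, H u w ∧ Walk H n w v

section walks

variable {H : V → V → Prop}

theorem Walk.one {u v : V} (h : H u v) : Walk H 1 u v := ⟨v, h, rfl⟩

theorem Walk.snoc {n : ℕ} {u v w : V} (h : Walk H n u v) (h' : H v w) : Walk H (n + 1) u w := by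
  induction n generalizing u with
  | zero => subst h; exact ⟨w, h', rfl⟩
  | succ n ih =>
    obtain ⟨x, hx, hw⟩ := h
    exact ⟨x, hx, ih hw⟩

theorem Walk.cons {n : ℕ} {u v w : V} (h' : H u v) (h : Walk H n v w) : Walk H (n + 1) u w :=
  ⟨v, h', h⟩

theorem Walk.symm (hs : ∀ u v, H u v → H v u) {n : ℕ} {u v : V} (h : Walk H n u v) :
    Walk H n v u := by
  induction n generalizing u with
  | zero => exact Eq.symm h
  | succ n ih =>
    obtain ⟨x, hx, hw⟩ := h
    exact (ih hw).snoc (hs _ _ hx)

theorem Walk.pad {n m : ℕ} {u v : V} (h : Walk H n u v) (hv : H v v) (hnm : n ≤ m) :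
    Walk H m u v := by
  induction m, hnm using Nat.le_induction with
  | base => exact h
  | succ m _ ih => exact ih.snoc hv

theorem Walk.map {V' : Type} {H' : V' → V' → Prop} {g : V → V'} (hg : ∀ u v, H u v → H' (g u) (g v))
    {n : ℕ} {u v : V} (h : Walk H n u v) : Walk H' n (g u) (g v) := by
  induction n generalizing u with
  | zero => exact congrArg g h
  | succ n ih =>
    obtain ⟨x, hx, hw⟩ := h
    exact ⟨g x, hg _ _ hx, ih hw⟩

theorem Walk.exists_fun {n : ℕ} {u v : V} (h : Walk H n u v) :
    ∃ w : ℕ → V, w 0 = u ∧ w n = v ∧ ∀ i, i < n → H (w i) (w (i + 1)) := by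
  induction n generalizing u with
  | zero => exact ⟨fun _ => u, rfl, h, fun i hi => absurd hi (Nat.not_lt_zero i)⟩
  | succ n ih =>
    obtain ⟨x, hx, hw⟩ := h
    obtain ⟨w, h0, h1, h2⟩ := ih hw
    refine ⟨fun i => if i = 0 then u else w (i - 1), rfl, ?_, ?_⟩
    · simpa using h1
    · intro i hi
      rcases i with _ | i
      · simpa [h0] using hx
      · simpa using h2 i (by omega)

theorem Walk.of_fun {w : ℕ → V} {n : ℕ} (h : ∀ i, i < n → H (w i) (w (i + 1))) :
    Walk H n (w 0) (w n) := by
  induction n with
  | zero => exact rfl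
  | succ n ih => exact (ih fun i hi => h i (by omega)).snoc (h n (by omega))

end walks

section comp

variable {H : V → V → Prop}

theorem LAdj.symm (hs : ∀ u v, H u v → H v u) {u v : V} (h : LAdj H u v) : LAdj H v u :=
  ⟨h.2.1, h.1, hs _ _ h.2.2⟩

theorem SC.refl (u : V) : SC H u u := Relation.ReflTransGen.refl

theorem SC.trans {u v w : V} (h : SC H u v) (h' : SC H v w) : SC H u w :=
  Relation.ReflTransGen.trans h h'

theorem SC.symm (hs : ∀ u v, H u v → H v u) {u v : V} (h : SC H u v) : SC H v u := by
  induction h with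
  | refl => exact SC.refl _
  | tail _ h2 ih => exact (Relation.ReflTransGen.single (LAdj.symm hs h2)).trans ih

theorem SC.single {u v : V} (hu : H u u) (hv : H v v) (h : H u v) : SC H u v :=
  Relation.ReflTransGen.single ⟨hu, hv, h⟩

theorem SC.map {g : V → V} (hg : ∀ u v, H u v → H (g u) (g v)) {u v : V} (h : SC H u v) :
    SC H (g u) (g v) := by
  induction h with
  | refl => exact SC.refl _
  | tail _ h2 ih => exact ih.trans (SC.single (hg _ _ h2.1) (hg _ _ h2.2.1) (hg _ _ h2.2.2))

/-- a length that suffices for all walks inside components -/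
theorem exists_len [Finite V] : ∃ l : ℕ, ∀ u v, H u u → SC H u v → Walk (LAdj H) l u v := by
  have h1 : ∀ p : V × V, ∃ l : ℕ, H p.1 p.1 → SC H p.1 p.2 →
      Walk (LAdj H) l p.1 p.2 ∧ H p.2 p.2 := by
    rintro ⟨u, v⟩
    by_cases hu : H u u
    · by_cases h : SC H u v
      · have h2 : ∃ l, Walk (LAdj H) l u v ∧ H v v := by
          induction h with
          | refl => exact ⟨0, rfl, hu⟩
          | tail _ h2 ih =>
            obtain ⟨l, hl, -⟩ := ih
            exact ⟨l + 1, hl.snoc h2, h2.2.1⟩
        obtain ⟨l, hl⟩ := h2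
        exact ⟨l, fun _ _ => hl⟩
      · exact ⟨0, fun _ h' => absurd h' h⟩
    · exact ⟨0, fun h' => absurd h' hu⟩
  choose l hl using h1
  have := Fintype.ofFinite V
  refine ⟨∑ p, l p, fun u v hu h => ?_⟩
  obtain ⟨h2, h3⟩ := hl (u, v) hu h
  exact h2.pad ⟨h3, h3, h3⟩ (Finset.single_le_sum (f := l) (fun _ _ => Nat.zero_le _)
    (Finset.mem_univ (u, v)))

end comp

/-! ### hub systems -/

/-- A hub system with variables `X`, hubs `E` and `L` links at every hub; owners and targets are
variables or vertices of `H`. -/
structure Sys (V X E : Type) (L : ℕ) where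
  /-- the owner of a hub -/
  owner : E → X ⊕ V
  /-- the target of a link -/
  target : E → Fin L → X ⊕ V

/-- the nodes of the pattern of a hub system; `e` is the number of inner vertices of a link and
`l` the length of the chains -/
inductive Node (V X E : Type) (L e l : ℕ) : Type
  | A (v : V) : Node V X E L e l
  | C (x : X) : Node V X E L e l
  | O (h : E) (m : Fin (l + 1)) : Node V X E L e l
  | Y (h : E) (i : Fin L) (k : Fin e) : Node V X E L e l
  | Z (h : E) (i : Fin L) (m : Fin (l + 1)) : Node V X E L e l

namespace Node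

variable {X E : Type} {L e l : ℕ}

/-- the node of a variable or anchor -/
def center (y : X ⊕ V) : Node V X E L e l := y.elim C A

/-- the nodes which are blown up -/
def fat (H : V → V → Prop) : Node V X E L e l → Prop
  | A v => H v v
  | C _ => True
  | O _ _ => True
  | Y _ _ _ => False
  | Z _ _ _ => True

/-- the (directed) edges of the pattern -/
inductive Edge (H : V → V → Prop) (S : Sys V X E L) : Node V X E L e l → Node V X E L e l → Prop
  | aa {u v : V} : H u v → u ≠ v → Edge H S (A u) (A v)
  | oo {h : E} {m m' : Fin (l + 1)} : m'.1 = m.1 + 1 → Edge H S (O h m) (O h m')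
  | oc {h : E} {m : Fin (l + 1)} : m.1 = l → Edge H S (O h m) (center (S.owner h))
  | oy {h : E} {m : Fin (l + 1)} {i : Fin L} {k : Fin e} : m.1 = 0 → k.1 = 0 →
      Edge H S (O h m) (Y h i k)
  | yf {h : E} {i j : Fin L} {k k' : Fin e} : i ≠ j → k.1 = 0 → k'.1 = 0 →
      Edge H S (Y h i k) (Y h j k')
  | yy {h : E} {i : Fin L} {k k' : Fin e} : k'.1 = k.1 + 1 → Edge H S (Y h i k) (Y h i k')
  | yz {h : E} {i : Fin L} {k : Fin e} {m : Fin (l + 1)} : k.1 + 1 = e → m.1 = 0 →
      Edge H S (Y h i k) (Z h i m)
  | zz {h : E} {i : Fin L} {m m' : Fin (l + 1)} : m'.1 = m.1 + 1 → Edge H S (Z h i m) (Z h i m')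
  | zc {h : E} {i : Fin L} {m : Fin (l + 1)} : m.1 = l → Edge H S (Z h i m) (center (S.target h i))

theorem Edge.ne {H : V → V → Prop} {S : Sys V X E L} {a b : Node V X E L e l}
    (h : Edge H S a b) : a ≠ b := by
  cases h with
  | aa _ h2 => intro h; injection h with h; exact h2 h
  | oo h1 => intro h; injection h with _ h; subst h; omega
  | @oc h m h1 => intro hh; rcases hw : S.owner h with x | x <;> rw [hw] at hh <;> cases hh
  | oy _ _ => intro h; cases h
  | yf h1 _ _ => intro h; injection h with _ h _; exact h1 h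
  | yy h1 => intro h; injection h with _ _ h; subst h; omega
  | yz _ _ => intro h; cases h
  | zz h1 => intro h; injection h with _ _ h; subst h; omega
  | @zc h i m h1 => intro hh; rcases hw : S.target h i with x | x <;> rw [hw] at hh <;> cases hh

end Node

/-- homomorphisms of the pattern: edges go to edges, fat nodes to reflexive vertices -/
structure PatHom {X E : Type} {L e l : ℕ} (H : V → V → Prop) (S : Sys V X E L)
    (F : Node V X E L e l → V) : Prop where
  edge : ∀ a b, Node.Edge H S a b → H (F a) (F b)
  loop : ∀ a, a.fat H → H (F a) (F a)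

/-- the blow-up of the pattern along `π : W → nodes` -/
def blow {X E W : Type} {L e l : ℕ} (H : V → V → Prop) (S : Sys V X E L)
    (π : W → Node V X E L e l) : SimpleGraph W where
  Adj w w' := w ≠ w' ∧ (π w = π w' ∨ Node.Edge H S (π w) (π w') ∨ Node.Edge H S (π w') (π w))
  symm := by
    constructor
    rintro w w' ⟨h1, h2⟩
    exact ⟨h1.symm, by tauto⟩
  loopless := by
    constructor
    rintro w ⟨h1, -⟩
    exact h1 rfl

/-- the fibres of `π`: one vertex over a thin node, more than `|V|` over a fat node -/
structure Fibres {X E W : Type} {L e l : ℕ} (H : V → V → Prop)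
    (π : W → Node V X E L e l) : Prop where
  surj : Function.Surjective π
  thin : ∀ w w', π w = π w' → ¬ (π w).fat H → w = w'
  fat : ∀ a : Node V X E L e l, a.fat H → Nat.card V < Nat.card {w // π w = a}

end Pool.Agent.Lib.P2ba8ab
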