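import Pool.Agent.Lib.P2ba8ab.Blow

set_option autoImplicit false

/-!
Pattern homomorphisms and assignments of reflexive vertices to variables.
-/

namespace Pool.Agent.Lib.P2ba8ab

open Node

/-- `b` has a walk of length `e` to a reflexive vertex in the component of `v` -/
def Ex {V : Type} (H : V → V → Prop) (e : ℕ) (v b : V) : Prop := ∃ q, H q q ∧ SC H v q ∧ Walk H e b q

/-- Some reflexive vertex `r` in the component of `u` has pairwise adjacent neighbours `b i`,
`i ∈ J`, such that `b i` has a walk of length `e` to the component of `lab i`. -/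
def Real {V ι : Type} (H : V → V → Prop) (e : ℕ) (u : V) (J : ι → Prop) (lab : ι → V) : Prop :=
  ∃ r, H r r ∧ SC H u r ∧ ∃ b : ι → V, (∀ i j, J i → J j → i ≠ j → H (b i) (b j)) ∧
    ∀ i, J i → H r (b i) ∧ Ex H e (lab i) (b i)

theorem Real.reindex {V ι ι' : Type} {H : V → V → Prop} {e : ℕ} {u u' : V} {J : ι → Prop}
    {lab : ι → V} (h : Real H e u J lab) (hu : SC H u' u) {J' : ι' → Prop} {lab' : ι' → V}
    (σ' : ι' → ι) (h1 : ∀ i, J' i → J (σ' i)) (h2 : ∀ i j, J' i → J' j → i ≠ j → σ' i ≠ σ' j)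
    (h3 : ∀ i, J' i → SC H (lab' i) (lab (σ' i))) : Real H e u' J' lab' := by
  obtain ⟨r, hr, hur, b, hb1, hb2⟩ := h
  refine ⟨r, hr, hu.trans hur, fun i => b (σ' i), ?_, ?_⟩
  · intro i j hi hj hij
    exact hb1 _ _ (h1 i hi) (h1 j hj) (h2 i j hi hj hij)
  · intro i hi
    obtain ⟨h4, q, hq, hlq, hw⟩ := hb2 _ (h1 i hi)
    exact ⟨h4, q, hq, (h3 i hi).trans hlq, hw⟩

theorem Real.map {V ι : Type} {H : V → V → Prop} {e : ℕ} {u : V} {J : ι → Prop}
    {lab : ι → V} (h : Real H e u J lab) {g : V → V} (hg : ∀ u v, H u v → H (g u) (g v)) :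
    Real H e (g u) J (fun i => g (lab i)) := by
  obtain ⟨r, hr, hur, b, hb1, hb2⟩ := h
  refine ⟨g r, hg _ _ hr, hur.map hg, fun i => g (b i), ?_, ?_⟩
  · intro i j hi hj hij
    exact hg _ _ (hb1 i j hi hj hij)
  · intro i hi
    obtain ⟨h4, q, hq, hlq, hw⟩ := hb2 i hi
    exact ⟨hg _ _ h4, g q, hg _ _ hq, hlq.map hg, hw.map hg⟩

variable {V X E : Type} {L e l : ℕ} {H : V → V → Prop} {S : Sys V X E L}

/-- an assignment satisfies the hub system -/
def Sat (H : V → V → Prop) (e : ℕ) (S : Sys V X E L) (ν : X ⊕ V → V) : Prop :=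
  ∀ h, Real H e (ν (S.owner h)) (fun i => ¬ SC H (ν (S.owner h)) (ν (S.target h i)))
    (fun i => ν (S.target h i))

/-- the targets and owners of a hub system are variables or reflexive vertices -/
structure Sys.Ok (H : V → V → Prop) (S : Sys V X E L) : Prop where
  owner : ∀ h v, S.owner h = Sum.inr v → H v v
  target : ∀ h i v, S.target h i = Sum.inr v → H v v

theorem Sys.Ok.fat_owner (hS : S.Ok H) (h : E) : (center (S.owner h) : Node V X E L e l).fat H := by
  rcases hw : S.owner h with x | v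
  · trivial
  · exact hS.owner h v hw

theorem Sys.Ok.fat_target (hS : S.Ok H) (h : E) (i : Fin L) :
    (center (S.target h i) : Node V X E L e l).fat H := by
  rcases hw : S.target h i with x | v
  · trivial
  · exact hS.target h i v hw

theorem PatHom.chainO {F : Node V X E L e l → V} (hF : PatHom H S F) (hS : S.Ok H) (h : E) :
    ∀ n : ℕ, ∀ m : Fin (l + 1), m.1 + n = l → SC H (F (O h m)) (F (center (S.owner h))) := by
  intro n
  induction n with
  | zero =>
    intro m hm
    exact SC.single (hF.loop (O h m) trivial) (hF.loop _ (hS.fat_owner h))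
      (hF.edge _ _ (Edge.oc hm))
  | succ n ih =>
    intro m hm
    exact (SC.single (hF.loop (O h m) trivial) (hF.loop (O h ⟨m.1 + 1, by omega⟩) trivial)
      (hF.edge _ _ (Edge.oo rfl))).trans (ih ⟨m.1 + 1, by omega⟩ (by simp only; omega))

theorem PatHom.chainZ {F : Node V X E L e l → V} (hF : PatHom H S F) (hS : S.Ok H) (h : E)
    (i : Fin L) :
    ∀ n : ℕ, ∀ m : Fin (l + 1), m.1 + n = l → SC H (F (Z h i m)) (F (center (S.target h i))) := by
  intro n
  induction n with
  | zero =>
    intro m hm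
    exact SC.single (hF.loop (Z h i m) trivial) (hF.loop _ (hS.fat_target h i))
      (hF.edge _ _ (Edge.zc hm))
  | succ n ih =>
    intro m hm
    exact (SC.single (hF.loop (Z h i m) trivial) (hF.loop (Z h i ⟨m.1 + 1, by omega⟩) trivial)
      (hF.edge _ _ (Edge.zz rfl))).trans (ih ⟨m.1 + 1, by omega⟩ (by simp only; omega))

/-- every fat node is in the component of a variable or of a reflexive anchor -/
theorem PatHom.fat_center {F : Node V X E L e l → V} (hF : PatHom H S F) (hS : S.Ok H)
    (a : Node V X E L e l) (ha : a.fat H) :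
    ∃ y : X ⊕ V, (∀ v, y = Sum.inr v → H v v) ∧ SC H (F a) (F (center y)) := by
  cases a with
  | A v => exact ⟨Sum.inr v, fun w hw => by injection hw with hw; subst hw; exact ha, SC.refl _⟩
  | C x => exact ⟨Sum.inl x, fun w hw => (nomatch hw), SC.refl _⟩
  | O h m => exact ⟨S.owner h, hS.owner h, hF.chainO hS h (l - m.1) m (by omega)⟩
  | Y h i k => exact absurd ha (fun h => h)
  | Z h i m => exact ⟨S.target h i, hS.target h i, hF.chainZ hS h i (l - m.1) m (by omega)⟩

/-- pattern homomorphisms give satisfying assignments -/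
theorem PatHom.sat (he : 1 ≤ e) (hs : ∀ u v, H u v → H v u) {F : Node V X E L e l → V}
    (hF : PatHom H S F) (hS : S.Ok H) : Sat H e S (fun y => F (center y)) := by
  intro h
  refine ⟨F (O h 0), hF.loop _ trivial, (hF.chainO hS h l 0 (by simp)).symm hs,
    fun i => F (Y h i ⟨0, he⟩), ?_, ?_⟩
  · intro i j _ _ hij
    exact hF.edge _ _ (Edge.yf hij rfl rfl)
  · intro i _
    refine ⟨hF.edge _ _ (Edge.oy rfl rfl), F (Z h i 0), hF.loop _ trivial,
      (hF.chainZ hS h i l 0 (by simp)).symm hs, ?_⟩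
    have key : ∀ n : ℕ, ∀ hn : n < e,
        Walk H n (F (Y h i ⟨0, he⟩)) (F (Y h i ⟨n, hn⟩)) := by
      intro n
      induction n with
      | zero => intro _; exact rfl
      | succ n ih =>
        intro hn
        exact (ih (by omega)).snoc (hF.edge _ _ (Edge.yy rfl))
    have h1 := (key (e - 1) (by omega)).snoc
      (hF.edge (Y h i ⟨e - 1, by omega⟩) (Z h i 0) (Edge.yz (by simp only; omega) rfl))
    rwa [Nat.sub_add_cancel he] at h1

/-- satisfying assignments give pattern homomorphisms -/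
theorem Sat.exists_patHom (he : 1 ≤ e) (hs : ∀ u v, H u v → H v u)
    (hl : ∀ u v, H u u → SC H u v → Walk (LAdj H) l u v) {ν : X ⊕ V → V} (hν : Sat H e S ν)
    (hS : S.Ok H) (hid : ∀ v, ν (Sum.inr v) = v) (hloop : ∀ x, H (ν (Sum.inl x)) (ν (Sum.inl x))) :
    ∃ F : Node V X E L e l → V, PatHom H S F ∧ ∀ v, F (A v) = v := by
  classical
  have hν1 : ∀ h, H (ν (S.owner h)) (ν (S.owner h)) := by
    intro h
    rcases hw : S.owner h with x | v
    · exact hloop x
    · rw [hid]; exact hS.owner h v hw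
  have hν2 : ∀ h i, H (ν (S.target h i)) (ν (S.target h i)) := by
    intro h i
    rcases hw : S.target h i with x | v
    · exact hloop x
    · rw [hid]; exact hS.target h i v hw
  choose r hr hur b hb1 hb2 using hν
  -- the walks of the hubs
  have hwO : ∀ h, ∃ w : ℕ → V, w 0 = r h ∧ w l = ν (S.owner h) ∧
      ∀ m, m < l → LAdj H (w m) (w (m + 1)) := fun h =>
    (hl _ _ (hr h) ((hur h).symm hs)).exists_fun
  choose wO hO0 hO1 hO2 using hwO
  -- the walks of the links
  have hwY : ∀ h i, ∃ (w : ℕ → V) (z : ℕ → V), H (r h) (w 0) ∧ H (w (e - 1)) (z 0) ∧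
      (∀ k, k + 1 < e → H (w k) (w (k + 1))) ∧ z l = ν (S.target h i) ∧ H (z 0) (z 0) ∧
      (∀ m, m < l → LAdj H (z m) (z (m + 1))) ∧
      (¬ SC H (ν (S.owner h)) (ν (S.target h i)) → w 0 = b h i) ∧
      (SC H (ν (S.owner h)) (ν (S.target h i)) → w 0 = r h) := by
    intro h i
    by_cases hJ : SC H (ν (S.owner h)) (ν (S.target h i))
    · obtain ⟨z, hz0, hz1, hz2⟩ := (hl _ _ (hr h) (((hur h).symm hs).trans hJ)).exists_fun
      refine ⟨fun _ => r h, z, hr h, ?_, fun _ _ => hr h, hz1, ?_, hz2, fun h' => absurd hJ h',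
        fun _ => rfl⟩
      · rw [hz0]; exact hr h
      · rw [hz0]; exact hr h
    · obtain ⟨h1, q, hq, hlq, hw⟩ := hb2 h i hJ
      obtain ⟨w, hw0, hw1, hw2⟩ := hw.exists_fun
      obtain ⟨z, hz0, hz1, hz2⟩ := (hl _ _ hq (hlq.symm hs)).exists_fun
      refine ⟨w, z, ?_, ?_, fun k hk => hw2 k (by omega), hz1, ?_, hz2, fun _ => hw0,
        fun h' => absurd h' hJ⟩
      · rw [hw0]; exact h1
      · have := hw2 (e - 1) (by omega)
        rw [Nat.sub_add_cancel he, hw1] at this
        rw [hz0]; exact this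
      · rw [hz0]; exact hq
  choose w z hY1 hY2 hY3 hZ1 hZ2 hZ3 hY4 hY5 using hwY
  let F : Node V X E L e l → V
    | A v => v
    | C x => ν (Sum.inl x)
    | O h m => wO h m.1
    | Y h i k => w h i k.1
    | Z h i m => z h i m.1
  have hFc : ∀ y : X ⊕ V, F (center y) = ν y := by
    rintro (x | v)
    · rfl
    · exact (hid v).symm
  have hOl : ∀ h (n : ℕ), n ≤ l → H (wO h n) (wO h n) := by
    intro h n hn
    rcases Nat.lt_or_ge n l with h1 | h1
    · exact (hO2 h n h1).1
    · obtain rfl : n = l := le_antisymm hn h1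
      rw [hO1]; exact hν1 h
  have hZl : ∀ h i (n : ℕ), n ≤ l → H (z h i n) (z h i n) := by
    intro h i n hn
    rcases Nat.lt_or_ge n l with h1 | h1
    · exact (hZ3 h i n h1).1
    · obtain rfl : n = l := le_antisymm hn h1
      rw [hZ1]; exact hν2 h i
  refine ⟨F, ⟨?_, ?_⟩, fun v => rfl⟩
  · intro a c hac
    cases hac with
    | aa h1 _ => exact h1
    | @oo h m m' h1 =>
      change H (wO h m.1) (wO h m'.1)
      rw [h1]
      exact (hO2 h m.1 (by omega)).2.2
    | @oc h m h1 =>
      rw [hFc]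
      change H (wO h m.1) _
      rw [h1, hO1]
      exact hν1 h
    | @oy h m i k h1 h2 =>
      change H (wO h m.1) (w h i k.1)
      rw [h1, h2, hO0]
      exact hY1 h i
    | @yf h i j k k' hij h1 h2 =>
      change H (w h i k.1) (w h j k'.1)
      rw [h1, h2]
      by_cases hi : SC H (ν (S.owner h)) (ν (S.target h i))
      · rw [hY5 h i hi]
        exact hY1 h j
      · by_cases hj : SC H (ν (S.owner h)) (ν (S.target h j))
        · rw [hY5 h j hj]
          exact hs _ _ (hY1 h i)
        · rw [hY4 h i hi, hY4 h j hj]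
          exact hb1 h i j hi hj hij
    | @yy h i k k' h1 =>
      change H (w h i k.1) (w h i k'.1)
      rw [h1]
      exact hY3 h i k.1 (by omega)
    | @yz h i k m h1 h2 =>
      change H (w h i k.1) (z h i m.1)
      rw [h2, show k.1 = e - 1 by omega]
      exact hY2 h i
    | @zz h i m m' h1 =>
      change H (z h i m.1) (z h i m'.1)
      rw [h1]
      exact (hZ3 h i m.1 (by omega)).2.2
    | @zc h i m h1 =>
      rw [hFc]
      change H (z h i m.1) _
      rw [h1, hZ1]
      exact hν2 h i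
  · intro a ha
    cases a with
    | A v => exact ha
    | C x => exact hloop x
    | O h m => exact hOl h m.1 (by omega)
    | Y h i k => exact absurd ha (fun h => h)
    | Z h i m => exact hZl h i m.1 (by omega)

end Pool.Agent.Lib.P2ba8ab
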