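import Pool.Agent.Lib.P2ba8ab.Core

set_option autoImplicit false

/-!
Soundness of the hub system.
-/

namespace Pool.Agent.Lib.P2ba8ab

open Node

variable {V : Type} {H : V → V → Prop} {e T : ℕ}

section kinds

variable {γ : Lab V} {f : Fin 3 ⊕ V → V}

/-- the statement that a hub of kind `κ` is satisfied -/
def HubSat (H : V → V → Prop) (e T : ℕ) (γ : Lab V) (κ : Kind) (f : Fin 3 ⊕ V → V) : Prop :=
  Real H e (f (κ.own γ)) (fun k => ¬ SC H (f (κ.own γ)) (f (κ.tgt γ T k)))
      (fun k => f (κ.tgt γ T k))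

/-- an endpoint hub: the variable is in the component of `q` or has `T` links to it -/
theorem HubSat.ee [Finite V] (hG : Good H e T) (h : HubSat H e T γ Kind.ee f) :
    SC H (f (Sum.inl 0)) (f (Sum.inr γ.q)) ∨ Lk H e (f (Sum.inl 0)) (f (Sum.inr γ.q)) T := by
  by_cases h0 : SC H (f (Sum.inl 0)) (f (Sum.inr γ.q))
  · exact Or.inl h0
  · right
    have hT := hG.le
    refine h.reindex (SC.refl _) (fun k => ⟨k.1, by omega⟩) ?_ ?_ ?_
    · intro k _
      simp only [Kind.tgt, k.2, if_true]
      exact h0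
    · intro i j _ _ hij heq
      simp only [Fin.mk.injEq] at heq
      exact hij (Fin.ext heq)
    · intro k _
      simp only [Kind.tgt, k.2, if_true]
      exact SC.refl _

/-- an endpoint hub: if the anchors are collapsed then the variable is in their component -/
theorem HubSat.ee_collapsed [Finite V] (hG : Good H e T) (h : HubSat H e T γ Kind.ee f)
    (hl0 : H (f (Sum.inl 0)) (f (Sum.inl 0))) (hlq : H (f (Sum.inr γ.q)) (f (Sum.inr γ.q)))
    (hc : SC H (f (Sum.inr γ.p)) (f (Sum.inr γ.q))) :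
    SC H (f (Sum.inl 0)) (f (Sum.inr γ.q)) := by
  by_contra h0
  have hT := hG.le
  refine hG.max _ _ hl0 hlq h0 (h.reindex (SC.refl _) (fun k => ⟨k.1, by omega⟩) ?_ ?_ ?_)
  · intro k _
    simp only [Kind.tgt]
    split_ifs with h1 h2
    · exact h0
    · exact fun h3 => h0 (h3.trans hc)
    · omega
  · intro i j _ _ hij heq
    simp only [Fin.mk.injEq] at heq
    exact hij (Fin.ext heq)
  · intro k _
    simp only [Kind.tgt]
    split_ifs with h1 h2
    · exact SC.refl _
    · exact hc.symm hG.symm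
    · omega

theorem HubSat.nn [Finite V] (hG : Good H e T) (h : HubSat H e T γ Kind.nn f)
    (hlp : H (f (Sum.inr γ.p)) (f (Sum.inr γ.p))) (hlq : H (f (Sum.inr γ.q)) (f (Sum.inr γ.q)))
    (hc : ¬ SC H (f (Sum.inr γ.p)) (f (Sum.inr γ.q))) :
    ¬ (SC H (f (Sum.inl 1)) (f (Sum.inr γ.q)) ∧ SC H (f (Sum.inl 2)) (f (Sum.inr γ.q))) := by
  rintro ⟨ha, hb⟩
  have hT := hG.le
  have hT1 := hG.hT
  refine hG.max _ _ hlp hlq hc (h.reindex (SC.refl _) (fun k => ⟨k.1, by omega⟩) ?_ ?_ ?_)
  · intro k _
    simp only [Kind.tgt, Kind.own]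
    split_ifs with h1 h2 h3
    · exact hc
    · exact fun h4 => hc (h4.trans ha)
    · exact fun h4 => hc (h4.trans hb)
    · omega
  · intro i j _ _ hij heq
    simp only [Fin.mk.injEq] at heq
    exact hij (Fin.ext heq)
  · intro k _
    simp only [Kind.tgt]
    split_ifs with h1 h2 h3
    · exact SC.refl _
    · exact ha.symm hG.symm
    · exact hb.symm hG.symm
    · omega

theorem HubSat.an [Finite V] (hG : Good H e T) (h : HubSat H e T γ Kind.an f)
    (hl0 : H (f (Sum.inl 0)) (f (Sum.inl 0))) (hlq : H (f (Sum.inr γ.q)) (f (Sum.inr γ.q)))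
    (ha : SC H (f (Sum.inl 1)) (f (Sum.inr γ.q))) (hb : SC H (f (Sum.inl 2)) (f (Sum.inr γ.q))) :
    SC H (f (Sum.inl 0)) (f (Sum.inr γ.q)) := by
  by_contra hc
  have hT := hG.le
  have hT1 := hG.hT
  refine hG.max _ _ hl0 hlq hc (h.reindex (SC.refl _) (fun k => ⟨k.1, by omega⟩) ?_ ?_ ?_)
  · intro k _
    simp only [Kind.tgt, Kind.own]
    split_ifs with h1 h2 h3
    · exact hc
    · exact fun h4 => hc (h4.trans ha)
    · exact fun h4 => hc (h4.trans hb)
    · omega
  · intro i j _ _ hij heq
    simp only [Fin.mk.injEq] at heq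
    exact hij (Fin.ext heq)
  · intro k _
    simp only [Kind.tgt]
    split_ifs with h1 h2 h3
    · exact SC.refl _
    · exact ha.symm hG.symm
    · exact hb.symm hG.symm
    · omega

/-- a disjunction hub with both variables outside the component of `q` realises a larger family -/
theorem HubSat.pp (hG : Good H e T) (h : HubSat H e T γ Kind.pp f)
    (ha : ¬ SC H (f (Sum.inl 1)) (f (Sum.inr γ.q))) (hb : ¬ SC H (f (Sum.inl 2)) (f (Sum.inr γ.q)))
    (i1 : Fin (Nat.card V))
    (K : Fin (Nat.card V) → V) (hK1 : K i1 = f (Sum.inl 2))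
    (hK2 : ∀ i, i ≠ i1 → K i = f (Sum.inr (γ.K i))) :
    Real H e (f (Sum.inr γ.q)) (fun o : Option (Fin (Nat.card V)) =>
      ∀ i, o = some i → ¬ SC H (f (Sum.inr γ.q)) (K i)) (fun o => o.elim (f (Sum.inl 1)) K) := by
  classical
  have hT1 := hG.hT
  refine h.reindex (SC.refl _) (fun o => o.elim ⟨0, by omega⟩ fun i =>
    if i = i1 then ⟨1, by omega⟩ else ⟨i.1 + 2, by omega⟩) ?_ ?_ ?_
  · rintro (_ | i) ho
    · simp only [Option.elim_none, Kind.tgt, if_true, Kind.own]
      exact fun h3 => ha (h3.symm hG.symm)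
    · have h1 := ho i rfl
      by_cases hi : i = i1
      · simp only [Option.elim_some, hi, if_true, Kind.tgt, Kind.own]
        simp only [one_ne_zero, if_false]
        exact fun h3 => hb (h3.symm hG.symm)
      · simp only [Option.elim_some, hi, if_false, Kind.tgt, Kind.own]
        rw [if_neg (by omega), if_neg (by omega), dif_pos (by omega), ← hK2 _ (by
          intro h; exact hi (by rw [← h]; exact Fin.ext (by simp)))]
        simpa using h1
  · rintro (_ | i) (_ | j) hi hj hij heq
    · exact hij rfl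
    · simp only [Option.elim_none, Option.elim_some] at heq
      split_ifs at heq with h1
      · simp only [Fin.mk.injEq, zero_ne_one] at heq
      · simp only [Fin.mk.injEq] at heq
        omega
    · simp only [Option.elim_none, Option.elim_some] at heq
      split_ifs at heq with h1
      · simp only [Fin.mk.injEq, one_ne_zero] at heq
      · simp only [Fin.mk.injEq] at heq
        omega
    · have hij' : i ≠ j := fun h => hij (congrArg some h)
      simp only [Option.elim_some] at heq
      split_ifs at heq with h1 h2 h2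
      · exact hij' (h1.trans h2.symm)
      · simp only [Fin.mk.injEq] at heq
        omega
      · simp only [Fin.mk.injEq] at heq
        omega
      · simp only [Fin.mk.injEq, add_left_inj] at heq
        exact hij' (Fin.ext heq)
  · rintro (_ | i) ho
    · simp only [Option.elim_none, Kind.tgt, if_true]
      exact SC.refl _
    · by_cases hi : i = i1
      · simp only [Option.elim_some, hi, if_true, Kind.tgt, one_ne_zero, if_false, hK1]
        exact SC.refl _
      · simp only [Option.elim_some, hi, if_false, Kind.tgt]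
        rw [if_neg (by omega), if_neg (by omega), dif_pos (by omega), ← hK2 _ (by
          intro h; exact hi (by rw [← h]; exact Fin.ext (by simp)))]
        simp only [Nat.add_sub_cancel]
        exact SC.refl _

end kinds

/-! ### worlds -/

variable {X I Γ : Type}

/-- composition of a solution with an endomorphism -/
theorem Sat.comp {E : Type} {L : ℕ} {S : Sys V X E L} {μ : X ⊕ V → V} (hμ : Sat H e S μ)
    {g : V → V} (hg : ∀ u v, H u v → H (g u) (g v)) : Sat H e S (fun y => g (μ y)) := by
  intro h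
  exact ((hμ h).map hg).reindex (SC.refl _) id (fun i hi h' => hi (h'.map hg))
    (fun i j _ _ hij => hij) (fun i _ => SC.refl _)

theorem hom_iterate {g : V → V} (hg : ∀ u v, H u v → H (g u) (g v)) (n : ℕ) :
    ∀ u v, H u v → H (g^[n] u) (g^[n] v) := by
  induction n with
  | zero => exact fun u v h => h
  | succ n ih =>
    intro u v h
    rw [Function.iterate_succ_apply', Function.iterate_succ_apply']
    exact hg _ _ (ih u v h)

/-- some iterate of a self-map of a finite set is idempotent -/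
theorem exists_idem [Finite V] (g : V → V) : ∃ N : ℕ, 1 ≤ N ∧ ∀ v, g^[N + N] v = g^[N] v := by
  obtain ⟨a, b, hab, heq⟩ := Finite.exists_ne_map_eq_of_infinite (fun n : ℕ => g^[n])
  wlog hlt : a < b generalizing a b
  · exact this b a hab.symm heq.symm (by omega)
  have heq : g^[a] = g^[b] := heq
  have h1 : ∀ m, a ≤ m → g^[m + (b - a)] = g^[m] := by
    intro m hm
    rw [show m + (b - a) = (m - a) + b by omega, Function.iterate_add, ← heq,
      ← Function.iterate_add, Nat.sub_add_cancel hm]
  have h2 : ∀ k m, a ≤ m → g^[m + k * (b - a)] = g^[m] := by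
    intro k
    induction k with
    | zero => intro m _; simp
    | succ k ih =>
      intro m hm
      rw [Nat.succ_mul, ← add_assoc, h1 _ (by omega), ih m hm]
  refine ⟨(a + 1) * (b - a), Nat.mul_pos (by omega) (by omega), fun v => ?_⟩
  rw [h2 (a + 1) ((a + 1) * (b - a)) (by nlinarith [show 1 ≤ b - a by omega])]

/-- the constraints contain an endpoint hub for every variable -/
def Cons.Total (C : Cons X I) : Prop := ∀ x, ∃ i, C.kind i = Kind.ee ∧ C.var i 0 = x

theorem Sat.hub {lb : Γ → Lab V} {C : Cons X I} {μ : (Γ × X) ⊕ V → V}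
    (hμ : Sat H e (sys T lb C) μ) (c : Γ) (i : I) :
    HubSat H e T (lb c) (C.kind i) (fun s => μ (s.map (fun s => (c, C.var i s)) id)) :=
  hμ (c, i)

/-- a variable is in the component of its sink or has `T` links to it -/
theorem Sat.var_ee [Finite V] (hG : Good H e T) {lb : Γ → Lab V} {C : Cons X I}
    (hC : C.Total) {μ : (Γ × X) ⊕ V → V} (hμ : Sat H e (sys T lb C) μ) (c : Γ) (x : X) :
    SC H (μ (Sum.inl (c, x))) (μ (Sum.inr (lb c).q)) ∨
      Lk H e (μ (Sum.inl (c, x))) (μ (Sum.inr (lb c).q)) T := by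
  obtain ⟨i, hi, rfl⟩ := hC x
  have := hμ.hub c i
  rw [hi] at this
  exact this.ee hG

/-- in a collapsed copy all variables are in the component of the sink -/
theorem Sat.var_collapsed [Finite V] (hG : Good H e T) {lb : Γ → Lab V} {C : Cons X I}
    (hC : C.Total) {μ : (Γ × X) ⊕ V → V} (hμ : Sat H e (sys T lb C) μ)
    (hl1 : ∀ z, H (μ (Sum.inl z)) (μ (Sum.inl z))) (c : Γ)
    (hl2 : H (μ (Sum.inr (lb c).q)) (μ (Sum.inr (lb c).q)))
    (hc : SC H (μ (Sum.inr (lb c).p)) (μ (Sum.inr (lb c).q))) (x : X) :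
    SC H (μ (Sum.inl (c, x))) (μ (Sum.inr (lb c).q)) := by
  obtain ⟨i, hi, rfl⟩ := hC x
  have := hμ.hub c i
  rw [hi] at this
  exact this.ee_collapsed hG (hl1 _) hl2 hc

/-- the setoid of components -/
def scSetoid (hs : ∀ u v, H u v → H v u) : Setoid V where
  r := SC H
  iseqv := ⟨SC.refl, fun h => h.symm hs, fun h h' => h.trans h'⟩

/-- some pair of labels is never collapsed -/
theorem exists_never [Finite V] (hG : Good H e T) {lb : Γ → Lab V} {C : Cons X I}
    (hC : C.Total) (hlab : ∀ c, (lb c).Valid H e T) {ν : (Γ × X) ⊕ V → V}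
    (hν : Sat H e (sys T lb C) ν) (hl1 : ∀ z, H (ν (Sum.inl z)) (ν (Sum.inl z)))
    (hg : ∀ u v, H u v → H (ν (Sum.inr u)) (ν (Sum.inr v)))
    (hcov : ∀ r, H r r → (∃ v, H v v ∧ SC H r (ν (Sum.inr v))) ∨ ∃ z, SC H r (ν (Sum.inl z))) :
    ∃ p q, H p p ∧ H q q ∧ Lk H e p q T ∧
      ∀ n, ¬ SC H ((fun v => ν (Sum.inr v))^[n] p) ((fun v => ν (Sum.inr v))^[n] q) := by
  classical
  set g : V → V := fun v => ν (Sum.inr v) with hgdef
  by_contra hcon
  push Not at hcon
  let P : ℕ → Prop := fun n => ∀ p q, H p p → H q q → Lk H e p q T → SC H (g^[n] p) (g^[n] q)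
  have hmono : ∀ p q n, SC H (g^[n] p) (g^[n] q) → ∀ m, n ≤ m → SC H (g^[m] p) (g^[m] q) := by
    intro p q n h m hm
    induction m, hm using Nat.le_induction with
    | base => exact h
    | succ m _ ih =>
      rw [Function.iterate_succ_apply', Function.iterate_succ_apply']
      exact ih.map hg
  have hP : ∃ n, P n := by
    have h1 : ∀ z : V × V, ∃ n, H z.1 z.1 → H z.2 z.2 → Lk H e z.1 z.2 T →
        SC H (g^[n] z.1) (g^[n] z.2) := by
      rintro ⟨p, q⟩
      by_cases h : H p p ∧ H q q ∧ Lk H e p q T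
      · obtain ⟨n, hn⟩ := hcon p q h.1 h.2.1 h.2.2
        exact ⟨n, fun _ _ _ => hn⟩
      · exact ⟨0, fun h1 h2 h3 => absurd ⟨h1, h2, h3⟩ h⟩
    choose n hn using h1
    have := Fintype.ofFinite V
    refine ⟨∑ z, n z, fun p q hp hq hl => ?_⟩
    exact hmono p q _ (hn (p, q) hp hq hl) _ (Finset.single_le_sum (f := n)
      (fun _ _ => Nat.zero_le _) (Finset.mem_univ (p, q)))
  have h1 := Nat.find_spec hP
  have h2 : Nat.find hP ≠ 0 := by
    intro h
    rw [h] at h1
    obtain ⟨u, v, hu, hv, huv, hlk⟩ := hG.ex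
    exact huv (h1 u v hu hv hlk)
  obtain ⟨n, hn⟩ := Nat.exists_eq_succ_of_ne_zero h2
  have h3 := Nat.find_min hP (m := n) (by omega)
  rw [hn] at h1
  simp only [P] at h3
  push Not at h3
  obtain ⟨p, q, hp, hq, hlk, hnc⟩ := h3
  -- the world after `n` steps
  have hgn := hom_iterate hg n
  have hμ : Sat H e (sys T lb C) (fun y => g^[n] (ν y)) := hν.comp hgn
  have hcov' : ∀ r, H r r → ∃ v, H v v ∧ SC H (g^[n] r) (g (g^[n] v)) := by
    intro r hr
    have hgg : ∀ v, g (g^[n] v) = g^[n] (g v) := fun v => by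
      rw [← Function.iterate_succ_apply' g, Function.iterate_succ_apply g]
    rcases hcov r hr with ⟨v, hv, hrv⟩ | ⟨⟨c, x⟩, hrz⟩
    · refine ⟨v, hv, ?_⟩
      rw [hgg]
      exact hrv.map hgn
    · refine ⟨(lb c).q, (hlab c).hq, ?_⟩
      rw [hgg]
      refine (hrz.map hgn).trans ?_
      refine hμ.var_collapsed hG hC (fun z => hgn _ _ (hl1 z)) c
        (hgn _ _ (hg _ _ (hlab c).hq)) ?_ x
      have := h1 (lb c).p (lb c).q (hlab c).hp (hlab c).hq (hlab c).hT
      rwa [Nat.succ_eq_add_one, Function.iterate_succ_apply, Function.iterate_succ_apply] at this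
  let s : Setoid V := scSetoid hG.symm
  let gb : Quotient s → Quotient s := Quotient.map' g fun a b h => SC.map hg h
  have := Fintype.ofFinite V
  have : Fintype (Quotient s) := Fintype.ofFinite _
  let R : Finset (Quotient s) := Finset.univ.filter fun c => ∃ r, H r r ∧ Quotient.mk s (g^[n] r) = c
  have hinj : Set.InjOn gb R := by
    apply Finset.injOn_of_surjOn_of_card_le gb (t := R)
    · intro c hc
      simp only [R, Finset.coe_filter, Finset.mem_univ, true_and, Set.mem_ofPred_eq] at hc ⊢
      obtain ⟨r, hr, rfl⟩ := hc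
      refine ⟨g r, hg _ _ hr, ?_⟩
      change Quotient.mk s _ = Quotient.mk s _
      rw [← Function.iterate_succ_apply, Function.iterate_succ_apply']
    · intro c hc
      simp only [R, Finset.coe_filter, Finset.mem_univ, true_and, Set.mem_ofPred_eq,
        Set.mem_image] at hc ⊢
      obtain ⟨r, hr, rfl⟩ := hc
      obtain ⟨v, hv, hrv⟩ := hcov' r hr
      refine ⟨Quotient.mk s (g^[n] v), ⟨v, hv, rfl⟩, ?_⟩
      change Quotient.mk s _ = Quotient.mk s _
      exact Quotient.sound (hrv.symm hG.symm)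
    · exact le_rfl
  have h4 : Quotient.mk s (g^[n] p) ∈ R := by
    simp only [R, Finset.mem_filter, Finset.mem_univ, true_and]
    exact ⟨p, hp, rfl⟩
  have h5 : Quotient.mk s (g^[n] q) ∈ R := by
    simp only [R, Finset.mem_filter, Finset.mem_univ, true_and]
    exact ⟨q, hq, rfl⟩
  refine hnc (Quotient.exact (hinj h4 h5 ?_))
  change Quotient.mk s _ = Quotient.mk s _
  apply Quotient.sound
  have := h1 p q hp hq hlk
  rwa [Nat.succ_eq_add_one, Function.iterate_succ_apply', Function.iterate_succ_apply'] at this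

/-- a world in which the anchors are moved by an idempotent endomorphism which fixes all values -/
theorem exists_world [Finite V] (hG : Good H e T) {lb : Γ → Lab V} {C : Cons X I}
    (hC : C.Total) (hlab : ∀ c, (lb c).Valid H e T) {ν : (Γ × X) ⊕ V → V}
    (hν : Sat H e (sys T lb C) ν) (hl1 : ∀ z, H (ν (Sum.inl z)) (ν (Sum.inl z)))
    (hg : ∀ u v, H u v → H (ν (Sum.inr u)) (ν (Sum.inr v)))
    (hcov : ∀ r, H r r → (∃ v, H v v ∧ SC H r (ν (Sum.inr v))) ∨ ∃ z, SC H r (ν (Sum.inl z))) :
    ∃ (μ : (Γ × X) ⊕ V → V) (ψ : V → V), Sat H e (sys T lb C) μ ∧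
      (∀ z, H (μ (Sum.inl z)) (μ (Sum.inl z))) ∧ (∀ u v, H u v → H (ψ u) (ψ v)) ∧
      (∀ v, μ (Sum.inr v) = ψ v) ∧ (∀ y, ψ (μ y) = μ y) ∧
      ∃ p q, H p p ∧ H q q ∧ Lk H e p q T ∧ ¬ SC H p q ∧ ψ p = p ∧ ψ q = q := by
  obtain ⟨p, q, hp, hq, hlk, hnc⟩ := exists_never hG hC hlab hν hl1 hg hcov
  set g : V → V := fun v => ν (Sum.inr v) with hgdef
  obtain ⟨N, hN, hid⟩ := exists_idem g
  have hgN := hom_iterate hg N
  refine ⟨fun y => g^[N + N - 1] (ν y), g^[N], hν.comp (hom_iterate hg _), fun z =>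
    hom_iterate hg _ _ _ (hl1 z), hgN, ?_, ?_, g^[N] p, g^[N] q, hgN _ _ hp, hgN _ _ hq,
    hlk.map hgN, hnc N, ?_, ?_⟩
  · intro v
    change g^[N + N - 1] (g v) = _
    rw [← Function.iterate_succ_apply g, Nat.succ_eq_add_one, Nat.sub_add_cancel (by omega), hid]
  · intro y
    change g^[N] (g^[N + N - 1] (ν y)) = g^[N + N - 1] (ν y)
    have h1 : g^[N] (g^[N + N - 1] (ν y)) = g^[N - 1] (g^[N + N] (ν y)) := by
      rw [← Function.iterate_add_apply, ← Function.iterate_add_apply]
      congr 1
      omega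
    have h2 : g^[N + N - 1] (ν y) = g^[N - 1] (g^[N] (ν y)) := by
      rw [← Function.iterate_add_apply]
      congr 1
      omega
    rw [h1, h2, hid]
  · rw [← Function.iterate_add_apply, hid]
  · rw [← Function.iterate_add_apply, hid]

/-- from a surjective homomorphism to a weak solution of the constraints -/
theorem sound {W : Type} {l : ℕ} [Finite V] [Finite W] (hG : Good H e T)
    {lb : Γ → Lab V} {C : Cons X I} (hC : C.Total) (hlab : ∀ c, (lb c).Valid H e T)
    (hall : ∀ γ : Lab V, γ.Valid H e T → ∃ c, lb c = γ)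
    {π : W → Node V (Γ × X) (Γ × I) (Nat.card V + 2) e l} (hπ : Fibres H π)
    (hsurj : SurjHom (blow H (sys T lb C) π) H) :
    ∃ a : X → Prop, ∀ i, (C.kind i).weak fun s => a (C.var i s) := by
  classical
  obtain ⟨f, hf, hfs⟩ := hsurj
  obtain ⟨F, hF, hfat⟩ := exists_fat hG.he hG.symm hG.min hπ hf hfs
  have hok := sys_ok (C := C) (e := e) (T := T) hlab
  let ν : (Γ × X) ⊕ V → V := fun y => F (center y)
  have hν : Sat H e (sys T lb C) ν := hF.sat hG.he hG.symm hok
  have hcov : ∀ r, H r r → (∃ v, H v v ∧ SC H r (ν (Sum.inr v))) ∨ ∃ z, SC H r (ν (Sum.inl z)) := by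
    intro r hr
    obtain ⟨a, ha, hra⟩ := hfat r hr
    obtain ⟨y, hy, hay⟩ := hF.fat_center hok a ha
    rcases y with z | v
    · exact Or.inr ⟨z, hra.trans hay⟩
    · exact Or.inl ⟨v, hy v rfl, hra.trans hay⟩
  obtain ⟨μ, ψ, hμ, hl1, hψ, hanch, hfix, p, q, hp, hq, hlk, hpq, hψp, hψq⟩ :=
    exists_world hG hC hlab hν (fun z => hF.loop (Node.C z) trivial) hF.anchor hcov
  -- the maximal family
  let Fam : Set (V × (Fin (Nat.card V) → V)) := {z | H z.1 z.1 ∧ ψ z.1 = z.1 ∧ ¬ SC H z.1 q ∧
    Lk H e z.1 q T ∧ (∀ i, H (z.2 i) (z.2 i)) ∧ (∀ i, ψ (z.2 i) = z.2 i) ∧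
    Real H e q (fun o : Option (Fin (Nat.card V)) => ∀ i, o = some i → ¬ SC H q (z.2 i))
      (fun o => o.elim z.1 z.2)}
  have hne : Fam.Nonempty := by
    refine ⟨(p, fun _ => q), hp, hψp, hpq, hlk, fun _ => hq, fun _ => hψq, ?_⟩
    refine ((hlk.mono hG.hT).rev hG.symm).reindex (SC.refl _) (fun _ => 0) (fun _ _ => trivial)
      ?_ ?_
    · rintro (_ | i) (_ | j) hi hj hij
      · exact absurd rfl hij
      · exact absurd (SC.refl _) (hj j rfl)
      · exact absurd (SC.refl _) (hi i rfl)
      · exact absurd (SC.refl _) (hi i rfl)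
    · rintro (_ | i) hi
      · exact SC.refl _
      · exact absurd (SC.refl _) (hi i rfl)
  let m : V × (Fin (Nat.card V) → V) → ℕ := fun z =>
    (Finset.univ.filter fun i => ¬ SC H q (z.2 i)).card
  obtain ⟨⟨x0, K0⟩, hz, hmax⟩ := Set.exists_max_image Fam m (Set.toFinite _) hne
  obtain ⟨hx0, hψx0, hx0q, hlk0, hK0, hψK0, hreal0⟩ := hz
  simp only at hx0 hψx0 hx0q hlk0 hK0 hψK0 hreal0
  obtain ⟨c, hc⟩ := hall ⟨x0, q, K0⟩ ⟨hx0, hq, hx0q, hlk0, hK0, hreal0⟩
  -- a free position
  have hfree : ∃ i1, SC H q (K0 i1) := by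
    by_contra hcon
    push Not at hcon
    have h1 := hreal0.card_le hG.min hG.symm (by
      rintro (_ | i) _
      · exact fun h => hx0q (h.symm hG.symm)
      · exact hcon i)
    have h2 : ∀ o : Option (Fin (Nat.card V)), (∀ i, o = some i → ¬ SC H q (K0 i)) :=
      fun o i _ => hcon i
    have h3 : Nat.card {o : Option (Fin (Nat.card V)) // ∀ i, o = some i → ¬ SC H q (K0 i)} =
        Nat.card (Option (Fin (Nat.card V))) :=
      Nat.card_congr (Equiv.subtypeUnivEquiv h2)
    rw [h3, Nat.card_eq_fintype_card, Fintype.card_option, Fintype.card_fin] at h1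
    omega
  obtain ⟨i1, hi1⟩ := hfree
  have hmuq : μ (Sum.inr (lb c).q) = q := by rw [hc, hanch]; exact hψq
  have hmup : μ (Sum.inr (lb c).p) = x0 := by rw [hc, hanch]; exact hψx0
  refine ⟨fun x => SC H (μ (Sum.inl (c, x))) q, fun i => ?_⟩
  have hhub := hμ.hub c i
  cases hk : C.kind i with
  | ee => trivial
  | nn =>
    rw [hk] at hhub
    have := hhub.nn hG (by simpa [hmup] using hx0) (by simpa [hmuq] using hq)
      (by simpa [hmup, hmuq] using hx0q)
    simpa [hmuq, Kind.weak] using this
  | an =>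
    rw [hk] at hhub
    intro h1 h2
    have := hhub.an hG (hl1 _) (by simpa [hmuq] using hq) (by simpa [hmuq] using h1)
      (by simpa [hmuq] using h2)
    simpa [hmuq] using this
  | pp =>
    rw [hk] at hhub
    by_contra hcon
    simp only [Kind.weak, not_or] at hcon
    obtain ⟨h1, h2⟩ := hcon
    set c1 := μ (Sum.inl (c, C.var i 1)) with hc1
    set c2 := μ (Sum.inl (c, C.var i 2)) with hc2
    have hr := hhub.pp hG (by simpa [hmuq] using h1) (by simpa [hmuq] using h2) i1
      (Function.update K0 i1 c2) (by simp [hc2]) (by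
        intro i hi
        rw [Function.update_of_ne hi]
        simp only [Sum.map_inr, id_eq, hc]
        rw [hanch, hψK0])
    simp only [Sum.map_inr, id_eq, hmuq, Sum.map_inl] at hr
    have hlk1 : Lk H e c1 q T := by
      rcases hμ.var_ee hG hC c (C.var i 1) with h | h
      · rw [hmuq] at h
        exact absurd h h1
      · rwa [hmuq] at h
    have hmem : (c1, Function.update K0 i1 c2) ∈ Fam := by
      refine ⟨hl1 _, hfix _, h1, hlk1, ?_, ?_, hr⟩
      · intro j
        by_cases hj : j = i1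
        · subst hj
          simp only [Function.update_self]
          exact hl1 _
        · simp only [Function.update_of_ne hj]
          exact hK0 j
      · intro j
        by_cases hj : j = i1
        · subst hj
          simp only [Function.update_self]
          exact hfix _
        · simp only [Function.update_of_ne hj]
          exact hψK0 j
    have hle := hmax _ hmem
    have hlt : m (x0, K0) < m (c1, Function.update K0 i1 c2) := by
      apply Finset.card_lt_card
      rw [Finset.ssubset_iff_of_subset]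
      · refine ⟨i1, ?_, ?_⟩
        · simp only [Finset.mem_filter, Finset.mem_univ, true_and, Function.update_self]
          exact fun h => h2 (h.symm hG.symm)
        · simp only [Finset.mem_filter, Finset.mem_univ, true_and, not_not]
          exact hi1
      · intro j hj
        simp only [Finset.mem_filter, Finset.mem_univ, true_and] at hj ⊢
        have hji : j ≠ i1 := fun h => hj (h ▸ hi1)
        rw [Function.update_of_ne hji]
        exact hj
    omega

end Pool.Agent.Lib.P2ba8ab
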