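import Pool.Agent.Lib.P2ba8ab.Sound

set_option autoImplicit false

/-!
Uniform families of constraints: tags and positions.
-/

namespace Pool.Agent.Lib.P2ba8ab

open Node

/-- the edges of a pattern, as a recursive predicate -/
def EdgeF {V X E : Type} {L e l : ℕ} (H : V → V → Prop) (S : Sys V X E L) :
    Node V X E L e l → Node V X E L e l → Prop
  | A u, A v => H u v ∧ u ≠ v
  | O h m, O h' m' => h' = h ∧ m'.1 = m.1 + 1
  | O h m, A v => m.1 = l ∧ S.owner h = Sum.inr v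
  | O h m, C x => m.1 = l ∧ S.owner h = Sum.inl x
  | O h m, Y h' _ k => h' = h ∧ m.1 = 0 ∧ k.1 = 0
  | Y h i k, Y h' j k' => h' = h ∧ ((i ≠ j ∧ k.1 = 0 ∧ k'.1 = 0) ∨ (i = j ∧ k'.1 = k.1 + 1))
  | Y h i k, Z h' j m => h' = h ∧ i = j ∧ k.1 + 1 = e ∧ m.1 = 0
  | Z h i m, Z h' j m' => h' = h ∧ i = j ∧ m'.1 = m.1 + 1
  | Z h i m, A v => m.1 = l ∧ S.target h i = Sum.inr v
  | Z h i m, C x => m.1 = l ∧ S.target h i = Sum.inl x
  | _, _ => False

theorem edge_iff {V X E : Type} {L e l : ℕ} {H : V → V → Prop} {S : Sys V X E L}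
    (a b : Node V X E L e l) : Edge H S a b ↔ EdgeF H S a b := by
  constructor
  · intro h
    cases h with
    | aa h1 h2 => exact ⟨h1, h2⟩
    | oo h1 => exact ⟨rfl, h1⟩
    | @oc h m h1 =>
      rcases hw : S.owner h with x | v
      · exact ⟨h1, hw⟩
      · exact ⟨h1, hw⟩
    | oy h1 h2 => exact ⟨rfl, h1, h2⟩
    | yf h1 h2 h3 => exact ⟨rfl, Or.inl ⟨h1, h2, h3⟩⟩
    | yy h1 => exact ⟨rfl, Or.inr ⟨rfl, h1⟩⟩
    | yz h1 h2 => exact ⟨rfl, rfl, h1, h2⟩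
    | zz h1 => exact ⟨rfl, rfl, h1⟩
    | @zc h i m h1 =>
      rcases hw : S.target h i with x | v
      · exact ⟨h1, hw⟩
      · exact ⟨h1, hw⟩
  · intro h
    match a, b, h with
    | A u, A v, h => exact Edge.aa h.1 h.2
    | O h m, O _ m', h' =>
      obtain ⟨rfl, h1⟩ := h'
      exact Edge.oo h1
    | O h m, A v, h' =>
      have := Edge.oc (H := H) (S := S) (e := e) (h := h) h'.1
      rwa [h'.2] at this
    | O h m, C x, h' =>
      have := Edge.oc (H := H) (S := S) (e := e) (h := h) h'.1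
      rwa [h'.2] at this
    | O h m, Y _ _ k, h' =>
      obtain ⟨rfl, h1, h2⟩ := h'
      exact Edge.oy h1 h2
    | Y h i k, Y _ j k', h' =>
      obtain ⟨rfl, h1 | h1⟩ := h'
      · exact Edge.yf h1.1 h1.2.1 h1.2.2
      · obtain ⟨rfl, h1⟩ := h1
        exact Edge.yy h1
    | Y h i k, Z _ j m, h' =>
      obtain ⟨rfl, rfl, h1, h2⟩ := h'
      exact Edge.yz h1 h2
    | Z h i m, Z _ j m', h' =>
      obtain ⟨rfl, rfl, h1⟩ := h'
      exact Edge.zz h1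
    | Z h i m, A v, h' =>
      have := Edge.zc (H := H) (S := S) (e := e) (h := h) (i := i) h'.1
      rwa [h'.2] at this
    | Z h i m, C x, h' =>
      have := Edge.zc (H := H) (S := S) (e := e) (h := h) (i := i) h'.1
      rwa [h'.2] at this

/-- tags of the nodes which are not anchors: `T` variable tags, `K` constraint tags -/
inductive Tag (Γ T K : Type) (L e l : ℕ) : Type
  | C (c : Γ) (t : T)
  | O (c : Γ) (k : K) (m : Fin (l + 1))
  | Y (c : Γ) (k : K) (i : Fin L) (κ : Fin e)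
  | Z (c : Γ) (k : K) (i : Fin L) (m : Fin (l + 1))

instance {Γ T K : Type} {L e l : ℕ} [Finite Γ] [Finite T] [Finite K] :
    Finite (Tag Γ T K L e l) := by
  let f : (Γ × T) ⊕ (Γ × K × Fin (l + 1)) ⊕ (Γ × K × Fin L × Fin e) ⊕
      (Γ × K × Fin L × Fin (l + 1)) → Tag Γ T K L e l
    | Sum.inl z => Tag.C z.1 z.2
    | Sum.inr (Sum.inl z) => Tag.O z.1 z.2.1 z.2.2
    | Sum.inr (Sum.inr (Sum.inl z)) => Tag.Y z.1 z.2.1 z.2.2.1 z.2.2.2
    | Sum.inr (Sum.inr (Sum.inr z)) => Tag.Z z.1 z.2.1 z.2.2.1 z.2.2.2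
  apply Finite.of_surjective f
  rintro (⟨c, t⟩ | ⟨c, k, m⟩ | ⟨c, k, i, κ⟩ | ⟨c, k, i, m⟩)
  · exact ⟨Sum.inl (c, t), rfl⟩
  · exact ⟨Sum.inr (Sum.inl (c, k, m)), rfl⟩
  · exact ⟨Sum.inr (Sum.inr (Sum.inl (c, k, i, κ))), rfl⟩
  · exact ⟨Sum.inr (Sum.inr (Sum.inr (c, k, i, m))), rfl⟩

/-- the tags of fat nodes -/
def Tag.fat {Γ T K : Type} {L e l : ℕ} : Tag Γ T K L e l → Prop
  | Y _ _ _ _ => False
  | _ => True

section

variable {V Γ T K P : Type} {L e l : ℕ}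

/-- the node with a given tag and position -/
def Tag.inst : Tag Γ T K L e l → P → Node V (Γ × (T × P)) (Γ × (K × P)) L e l
  | C c t, p => Node.C (c, (t, p))
  | O c k m, p => Node.O (c, (k, p)) m
  | Y c k i κ, p => Node.Y (c, (k, p)) i κ
  | Z c k i m, p => Node.Z (c, (k, p)) i m

theorem Tag.inst_inj {τ τ' : Tag Γ T K L e l} {p p' : P}
    (h : (τ.inst p : Node V _ _ L e l) = τ'.inst p') : τ = τ' ∧ p = p' := by
  cases τ <;> cases τ' <;> simp only [Tag.inst, reduceCtorEq, Node.C.injEq, Node.O.injEq,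
    Node.Y.injEq, Node.Z.injEq, Prod.mk.injEq] at h <;>
    simp only [Tag.C.injEq, Tag.O.injEq, Tag.Y.injEq, Tag.Z.injEq] <;> tauto

theorem Tag.inst_ne_A {τ : Tag Γ T K L e l} {p : P} {v : V} :
    (τ.inst p : Node V _ _ L e l) ≠ Node.A v := by
  cases τ <;> exact fun h => by cases h

theorem Tag.fat_inst {H : V → V → Prop} (τ : Tag Γ T K L e l) (p : P) :
    (τ.inst p : Node V _ _ L e l).fat H ↔ τ.fat := by
  cases τ <;> exact Iff.rfl

/-- a uniform family of constraints: `kd` gives the kinds, `vr` the variable tags and the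
references, depending on a bit of the position; `cr` evaluates references -/
def lay (kd : K → Kind) (vr : K → Bool → Fin 3 → T × Fin 3) (ad : P → Bool)
    (cr : Fin 3 → P → P) : Cons (T × P) (K × P) where
  kind i := kd i.1
  var i s := ((vr i.1 (ad i.2) s).1, cr (vr i.1 (ad i.2) s).2 i.2)

/-- edges between tags: bit of the position of the first node and reference of the second -/
def KE (lb : Γ → Lab V) (Tm : ℕ) (kd : K → Kind) (vr : K → Bool → Fin 3 → T × Fin 3) :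
    Tag Γ T K (Nat.card V + 2) e l → Tag Γ T K (Nat.card V + 2) e l → Bool → Fin 3 → Prop
  | .O c k m, .O c' k' m', _, r => (c' = c ∧ k' = k ∧ m'.1 = m.1 + 1) ∧ r = 0
  | .O c k m, .C c' t, b, r => m.1 = l ∧ c' = c ∧ ∃ s, (kd k).own (lb c) = Sum.inl s ∧
      vr k b s = (t, r)
  | .O c k m, .Y c' k' _ κ, _, r => (c' = c ∧ k' = k ∧ m.1 = 0 ∧ κ.1 = 0) ∧ r = 0
  | .Y c k i κ, .Y c' k' j κ', _, r => (c' = c ∧ k' = k ∧
      ((i ≠ j ∧ κ.1 = 0 ∧ κ'.1 = 0) ∨ (i = j ∧ κ'.1 = κ.1 + 1))) ∧ r = 0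
  | .Y c k i κ, .Z c' k' j m, _, r => (c' = c ∧ k' = k ∧ i = j ∧ κ.1 + 1 = e ∧ m.1 = 0) ∧ r = 0
  | .Z c k i m, .Z c' k' j m', _, r => (c' = c ∧ k' = k ∧ i = j ∧ m'.1 = m.1 + 1) ∧ r = 0
  | .Z c k i m, .C c' t, b, r => m.1 = l ∧ c' = c ∧ ∃ s, (kd k).tgt (lb c) Tm i = Sum.inl s ∧
      vr k b s = (t, r)
  | _, _, _, _ => False

/-- edges from tags to anchors -/
def KA (lb : Γ → Lab V) (Tm : ℕ) (kd : K → Kind) :
    Tag Γ T K (Nat.card V + 2) e l → V → Prop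
  | .O c k m, v => m.1 = l ∧ (kd k).own (lb c) = Sum.inr v
  | .Z c k i m, v => m.1 = l ∧ (kd k).tgt (lb c) Tm i = Sum.inr v
  | _, _ => False

variable {H : V → V → Prop} {lb : Γ → Lab V} {Tm : ℕ} {kd : K → Kind}
  {vr : K → Bool → Fin 3 → T × Fin 3} {ad : P → Bool} {cr : Fin 3 → P → P}

theorem edge_inst (hcr : ∀ p, cr 0 p = p) (τ τ' : Tag Γ T K (Nat.card V + 2) e l) (p p' : P) :
    Edge H (sys Tm lb (lay kd vr ad cr)) (τ.inst p) (τ'.inst p') ↔
      ∃ r, KE lb Tm kd vr τ τ' (ad p) r ∧ p' = cr r p := by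
  rw [edge_iff]
  have key : ∀ (a : Fin 3 ⊕ V) (c c' : Γ) (k : K) (t : T),
      (a.map (fun s => (c, (lay kd vr ad cr).var (k, p) s)) id = Sum.inl (c', (t, p'))) ↔
      (c' = c ∧ ∃ r, (∃ s, a = Sum.inl s ∧ vr k (ad p) s = (t, r)) ∧ p' = cr r p) := by
    intro a c c' k t
    rcases a with s | v
    · simp only [Sum.map_inl, Sum.inl.injEq, lay, Prod.mk.injEq]
      constructor
      · rintro ⟨rfl, h1, h2⟩
        exact ⟨rfl, _, ⟨s, rfl, Prod.ext h1 rfl⟩, h2.symm⟩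
      · rintro ⟨rfl, r, ⟨s', rfl, h1⟩, h2⟩
        rw [h1]
        exact ⟨rfl, rfl, h2.symm⟩
    · simp
  cases τ <;> cases τ' <;> simp only [Tag.inst, EdgeF, KE, false_and, exists_false, sys, key]
  · constructor
    · rintro ⟨h1, h2, r, h3, h4⟩
      exact ⟨r, ⟨h1, h2, h3⟩, h4⟩
    · rintro ⟨r, ⟨h1, h2, h3⟩, h4⟩
      exact ⟨h1, h2, r, h3, h4⟩
  · simp only [Prod.mk.injEq]
    constructor
    · rintro ⟨⟨h1, h2, rfl⟩, h3⟩
      exact ⟨0, ⟨⟨h1, h2, h3⟩, rfl⟩, (hcr _).symm⟩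
    · rintro ⟨r, ⟨⟨h1, h2, h3⟩, rfl⟩, h4⟩
      exact ⟨⟨h1, h2, h4.trans (hcr _)⟩, h3⟩
  · simp only [Prod.mk.injEq]
    constructor
    · rintro ⟨⟨h1, h2, rfl⟩, h3⟩
      exact ⟨0, ⟨⟨h1, h2, h3⟩, rfl⟩, (hcr _).symm⟩
    · rintro ⟨r, ⟨⟨h1, h2, h3⟩, rfl⟩, h4⟩
      exact ⟨⟨h1, h2, h4.trans (hcr _)⟩, h3⟩
  · simp only [Prod.mk.injEq]
    constructor
    · rintro ⟨⟨h1, h2, rfl⟩, h3⟩
      exact ⟨0, ⟨⟨h1, h2, h3⟩, rfl⟩, (hcr _).symm⟩
    · rintro ⟨r, ⟨⟨h1, h2, h3⟩, rfl⟩, h4⟩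
      exact ⟨⟨h1, h2, h4.trans (hcr _)⟩, h3⟩
  · simp only [Prod.mk.injEq]
    constructor
    · rintro ⟨⟨h1, h2, rfl⟩, h3⟩
      exact ⟨0, ⟨⟨h1, h2, h3⟩, rfl⟩, (hcr _).symm⟩
    · rintro ⟨r, ⟨⟨h1, h2, h3⟩, rfl⟩, h4⟩
      exact ⟨⟨h1, h2, h4.trans (hcr _)⟩, h3⟩
  · constructor
    · rintro ⟨h1, h2, r, h3, h4⟩
      exact ⟨r, ⟨h1, h2, h3⟩, h4⟩
    · rintro ⟨r, ⟨h1, h2, h3⟩, h4⟩
      exact ⟨h1, h2, r, h3, h4⟩
  · simp only [Prod.mk.injEq]
    constructor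
    · rintro ⟨⟨h1, h2, rfl⟩, h3⟩
      exact ⟨0, ⟨⟨h1, h2, h3⟩, rfl⟩, (hcr _).symm⟩
    · rintro ⟨r, ⟨⟨h1, h2, h3⟩, rfl⟩, h4⟩
      exact ⟨⟨h1, h2, h4.trans (hcr _)⟩, h3⟩

theorem edge_inst_A (τ : Tag Γ T K (Nat.card V + 2) e l) (p : P) (v : V) :
    Edge H (sys Tm lb (lay kd vr ad cr)) (τ.inst p) (Node.A v) ↔ KA lb Tm kd τ v := by
  rw [edge_iff]
  have key : ∀ (a : Fin 3 ⊕ V) (c : Γ) (k : K),
      (a.map (fun s => (c, (lay kd vr ad cr).var (k, p) s)) id = Sum.inr v) ↔ a = Sum.inr v := by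
    intro a c k
    rcases a with s | v <;> simp
  cases τ <;> simp only [Tag.inst, EdgeF, KA, sys, key] <;> exact Iff.rfl

theorem edge_A_inst (τ : Tag Γ T K (Nat.card V + 2) e l) (p : P) (v : V) :
    ¬ Edge H (sys Tm lb (lay kd vr ad cr)) (Node.A v) (τ.inst p) := by
  rw [edge_iff]
  cases τ <;> simp only [Tag.inst, EdgeF, not_false_eq_true]

theorem edge_A_A (u v : V) :
    Edge H (sys Tm lb (lay kd vr ad cr)) (Node.A u : Node _ _ _ _ e l) (Node.A v) ↔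
      H u v ∧ u ≠ v := by
  rw [edge_iff]
  exact Iff.rfl

end

/-! ### indices -/

/-- tables of nodes: fat elements occur more than `m` times, the others once -/
theorem exists_table (N : Type) [Finite N] (fat : N → Prop) (m : ℕ) :
    ∃ (R : ℕ) (τ : Fin R → N), Function.Surjective τ ∧
      (∀ i j, τ i = τ j → ¬ fat (τ i) → i = j) ∧ ∀ a, fat a → m < Nat.card {i // τ i = a} := by
  classical
  let W := {x : N × Fin (m + 1) // fat x.1 ∨ x.2 = 0}
  have e : Fin (Nat.card W) ≃ W := (Finite.equivFin W).symm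
  refine ⟨Nat.card W, fun i => (e i).1.1, ?_, ?_, ?_⟩
  · intro a
    exact ⟨e.symm ⟨(a, 0), Or.inr rfl⟩, by simp⟩
  · intro i j hij hf
    have hij : (e i).1.1 = (e j).1.1 := hij
    have hf : ¬ fat (e i).1.1 := hf
    apply e.injective
    have h1 := (e i).2.resolve_left hf
    have h2 := (e j).2.resolve_left (by rw [← hij]; exact hf)
    exact Subtype.ext (Prod.ext hij (h1.trans h2.symm))
  · intro a ha
    have : Function.Injective (fun k : Fin (m + 1) =>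
        (⟨e.symm ⟨(a, k), Or.inl ha⟩, by simp⟩ : {i : Fin (Nat.card W) // (e i).1.1 = a})) := by
      intro k k' h
      have h1 := congrArg Subtype.val h
      simp only [EmbeddingLike.apply_eq_iff_eq] at h1
      exact (Prod.mk.inj (congrArg Subtype.val h1)).2
    have h2 := Nat.card_le_card_of_injective _ this
    rw [Nat.card_fin] at h2
    exact h2

section

variable {V Γ T K P : Type} {L e l : ℕ} {H : V → V → Prop} {c0 R : ℕ}

/-- the node of an index -/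
def nodeOf (an : Fin c0 → V) (tg : Fin R → Tag Γ T K L e l) :
    Fin c0 ⊕ (P × Fin R) → Node V (Γ × (T × P)) (Γ × (K × P)) L e l
  | Sum.inl u => Node.A (an u)
  | Sum.inr z => (tg z.2).inst z.1

theorem fibres_nodeOf [Finite P] {an : Fin c0 → V} {tg : Fin R → Tag Γ T K L e l}
    (h1 : Function.Surjective an) (h2 : ∀ i j, an i = an j → ¬ H (an i) (an i) → i = j)
    (h3 : ∀ a, H a a → Nat.card V < Nat.card {i // an i = a})
    (h4 : Function.Surjective tg) (h5 : ∀ i j, tg i = tg j → ¬ (tg i).fat → i = j)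
    (h6 : ∀ a : Tag Γ T K L e l, a.fat → Nat.card V < Nat.card {i // tg i = a}) :
    Fibres H (nodeOf (P := P) an tg) := by
  have hsurj : ∀ (τ : Tag Γ T K L e l) (p : P), ∃ w, nodeOf an tg w = τ.inst p := by
    intro τ p
    obtain ⟨t, rfl⟩ := h4 τ
    exact ⟨Sum.inr (p, t), rfl⟩
  have hcard : ∀ (τ : Tag Γ T K L e l) (p : P), τ.fat →
      Nat.card V < Nat.card {w // nodeOf an tg w = (τ.inst p : Node V _ _ L e l)} := by
    intro τ p hτ
    refine (h6 τ hτ).trans_le ?_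
    refine Nat.card_le_card_of_injective (fun t : {i // tg i = τ} =>
      (⟨Sum.inr (p, t.1), by simp only [nodeOf, t.2]⟩ :
        {w // nodeOf an tg w = (τ.inst p : Node V _ _ L e l)})) ?_
    intro t t' h
    have := congrArg Subtype.val h
    simp only [Sum.inr.injEq, Prod.mk.injEq, true_and] at this
    exact Subtype.ext this
  refine ⟨?_, ?_, ?_⟩
  · rintro (v | ⟨c, t, p⟩ | ⟨⟨c, k, p⟩, m⟩ | ⟨⟨c, k, p⟩, i, κ⟩ | ⟨⟨c, k, p⟩, i, m⟩)
    · obtain ⟨u, rfl⟩ := h1 v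
      exact ⟨Sum.inl u, rfl⟩
    · exact hsurj (Tag.C c t) p
    · exact hsurj (Tag.O c k m) p
    · exact hsurj (Tag.Y c k i κ) p
    · exact hsurj (Tag.Z c k i m) p
  · rintro (u | ⟨p, t⟩) (u' | ⟨p', t'⟩) h hf
    · simp only [nodeOf, Node.A.injEq] at h
      exact congrArg Sum.inl (h2 _ _ h hf)
    · exact absurd h.symm Tag.inst_ne_A
    · exact absurd h Tag.inst_ne_A
    · obtain ⟨h7, rfl⟩ := Tag.inst_inj h
      rw [h5 t t' h7 (fun h8 => hf ((Tag.fat_inst _ _).2 h8))]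
  · rintro (v | ⟨c, t, p⟩ | ⟨⟨c, k, p⟩, m⟩ | ⟨⟨c, k, p⟩, i, κ⟩ | ⟨⟨c, k, p⟩, i, m⟩) ha
    · refine (h3 v ha).trans_le ?_
      refine Nat.card_le_card_of_injective (fun t : {i // an i = v} =>
        (⟨Sum.inl t.1, by simp only [nodeOf, t.2]⟩ :
          {w // nodeOf (P := P) an tg w = Node.A v})) ?_
      intro t t' h
      have := congrArg Subtype.val h
      simp only [Sum.inl.injEq] at this
      exact Subtype.ext this
    · exact hcard (Tag.C c t) p trivial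
    · exact hcard (Tag.O c k m) p trivial
    · exact absurd ha (fun h => h)
    · exact hcard (Tag.Z c k i m) p trivial

theorem Fibres.comp_equiv {X E W W' : Type} {π : W → Node V X E L e l} (h : Fibres H π)
    (f : W' ≃ W) : Fibres H (fun w => π (f w)) := by
  refine ⟨?_, ?_, ?_⟩
  · intro a
    obtain ⟨w, rfl⟩ := h.surj a
    exact ⟨f.symm w, by simp⟩
  · intro w w' h1 h2
    exact f.injective (h.thin _ _ h1 h2)
  · intro a ha
    rw [Nat.card_congr (f.subtypeEquiv (q := fun w => π w = a) (fun w => Iff.rfl))]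
    exact h.fat a ha

end

end Pool.Agent.Lib.P2ba8ab
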